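import Pool.Agent.Helper72.KRF.Pt

/-!
# The hypersurfaces `x + x² y + z² + G(t) = 0` and their cylinders
-/

set_option autoImplicit false

namespace Pool.Agent.Helper72.KRF

open Finset

noncomputable section

/-- The coordinate ring of the hypersurface `x + x² y + z² + G(t_1, ..., t_k) = 0`. -/
abbrev KR {k : ℕ} (G : MvPolynomial (Fin k) ℂ) : Type :=
  MvPolynomial (Fin 3 ⊕ Fin k) ℂ ⧸ Ideal.span
    {(MvPolynomial.X (Sum.inl 0) + MvPolynomial.X (Sum.inl 0) ^ 2 * MvPolynomial.X (Sum.inl 1) +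
      MvPolynomial.X (Sum.inl 2) ^ 2 + MvPolynomial.rename Sum.inr G : MvPolynomial (Fin 3 ⊕ Fin k) ℂ)}

/-- Every tangent vector at every point is a combination of the values of locally nilpotent derivations. -/
def Flexible (A : Type) [CommRing A] [Algebra ℂ A] : Prop :=
  ∀ φ : A →ₐ[ℂ] ℂ, ∀ δ : A →ₗ[ℂ] ℂ, (∀ a b : A, δ (a * b) = φ a * δ b + φ b * δ a) →
    δ ∈ Submodule.span ℂ {ℓ : A →ₗ[ℂ] ℂ | ∃ D : Derivation ℂ A A,
      (∀ a : A, ∃ k : ℕ, (⇑D)^[k] a = 0) ∧ ℓ = φ.toLinearMap.comp D.toLinearMap}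

theorem Flexible.of_equiv {A B : Type} [CommRing A] [Algebra ℂ A] [CommRing B] [Algebra ℂ B]
    (e : A ≃ₐ[ℂ] B) (h : Flexible B) : Flexible A := by
  intro φ δ hδ
  have h1 := h (φ.comp e.symm.toAlgHom) (δ.comp e.symm.toLinearMap) (by
    intro a b
    simp only [LinearMap.comp_apply, AlgEquiv.toLinearMap_apply, map_mul]
    exact hδ _ _)
  let T : (B →ₗ[ℂ] ℂ) →ₗ[ℂ] (A →ₗ[ℂ] ℂ) := LinearMap.lcomp ℂ ℂ e.toLinearMap
  have h3 : T (δ.comp e.symm.toLinearMap) = δ := by
    refine LinearMap.ext fun a => ?_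
    simp [T]
  rw [← h3]
  have h4 : Submodule.span ℂ {ℓ : B →ₗ[ℂ] ℂ | ∃ D : Derivation ℂ B B,
      (∀ a : B, ∃ k : ℕ, (⇑D)^[k] a = 0) ∧ ℓ = (φ.comp e.symm.toAlgHom).toLinearMap.comp D.toLinearMap} ≤
      (Submodule.span ℂ {ℓ : A →ₗ[ℂ] ℂ | ∃ D : Derivation ℂ A A,
      (∀ a : A, ∃ k : ℕ, (⇑D)^[k] a = 0) ∧ ℓ = φ.toLinearMap.comp D.toLinearMap}).comap T := by
    refine Submodule.span_le.2 ?_
    rintro ℓ ⟨D, hD, rfl⟩
    refine Submodule.subset_span ?_
    let D' : Derivation ℂ A A := Derivation.mk'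
      (e.symm.toLinearMap ∘ₗ D.toLinearMap ∘ₗ e.toLinearMap) (by
      intro a b
      simp only [LinearMap.comp_apply, AlgEquiv.toLinearMap_apply, Derivation.coeFn_coe,
        map_mul, Derivation.leibniz, smul_eq_mul, map_add, AlgEquiv.symm_apply_apply])
    have hD' : ∀ a, D' a = e.symm (D (e a)) := fun a => rfl
    refine ⟨D', ?_, ?_⟩
    · intro a
      obtain ⟨k, hk⟩ := hD (e a)
      refine ⟨k, ?_⟩
      have h5 : ∀ n, (⇑D')^[n] a = e.symm ((⇑D)^[n] (e a)) := by
        intro n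
        induction n with
        | zero => simp
        | succ n ih =>
          rw [Function.iterate_succ_apply', ih, hD', AlgEquiv.apply_symm_apply,
            Function.iterate_succ_apply']
      rw [h5, hk, map_zero]
    · refine LinearMap.ext fun a => ?_
      rfl
  exact h4 h1

section iso

variable {k : ℕ} (m : ℕ) (G : MvPolynomial (Fin k) ℂ)

/-- the equation -/
def F3 : MvPolynomial (Fin 3 ⊕ Fin k) ℂ :=
  MvPolynomial.X (Sum.inl 0) + MvPolynomial.X (Sum.inl 0) ^ 2 * MvPolynomial.X (Sum.inl 1) +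
    MvPolynomial.X (Sum.inl 2) ^ 2 + MvPolynomial.rename Sum.inr G

/-- values of the generators of `KR G` in the cylinder -/
def va : Fin 3 ⊕ Fin k → Cy m G := Sum.elim ![cx m G, cy m G, cz m G] (ct m G)

theorem aeval_va : MvPolynomial.aeval (va m G) (F3 G) = 0 := by
  have h := rel m G
  rw [F3, map_add, map_add, map_add, map_mul, map_pow, map_pow, MvPolynomial.aeval_X,
    MvPolynomial.aeval_X, MvPolynomial.aeval_X, MvPolynomial.aeval_rename]
  exact h

/-- the inclusion of the base in the cylinder -/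
def bs : KR G →ₐ[ℂ] Cy m G :=
  Ideal.Quotient.liftₐ _ (MvPolynomial.aeval (va m G)) (by
    intro a ha
    obtain ⟨q, rfl⟩ := Ideal.mem_span_singleton'.1 ha
    rw [map_mul]
    change _ * MvPolynomial.aeval (va m G) (F3 G) = 0
    rw [aeval_va, mul_zero])

theorem bs_mk (p : MvPolynomial (Fin 3 ⊕ Fin k) ℂ) :
    bs m G (Ideal.Quotient.mk _ p) = MvPolynomial.aeval (va m G) p := rfl

/-- generators of `KR G` -/
def kg (i : Fin 3 ⊕ Fin k) : KR G := Ideal.Quotient.mk _ (MvPolynomial.X i)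

theorem krel : kg G (Sum.inl 0) + kg G (Sum.inl 0) ^ 2 * kg G (Sum.inl 1) + kg G (Sum.inl 2) ^ 2 +
    MvPolynomial.aeval (fun j => kg G (Sum.inr j)) G = 0 := by
  have h := aeval_F (F := F3 G)
  rw [F3, map_add, map_add, map_add, map_mul, map_pow, map_pow, MvPolynomial.aeval_X,
    MvPolynomial.aeval_X, MvPolynomial.aeval_X, MvPolynomial.aeval_rename] at h
  exact h

/-- from the polynomial ring over the base to the cylinder -/
def fwd : MvPolynomial (Fin (m + 1)) (KR G) →ₐ[ℂ] Cy m G :=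
  MvPolynomial.aevalTower (bs m G) (cw m G)

/-- values of the variables in the polynomial ring over the base -/
def vb : Ix m k → MvPolynomial (Fin (m + 1)) (KR G) :=
  Sum.elim (fun i => MvPolynomial.C (kg G (Sum.inl i)))
    (Sum.elim MvPolynomial.X (fun j => MvPolynomial.C (kg G (Sum.inr j))))

theorem aeval_vb : MvPolynomial.aeval (vb m G) (F4 m G) = 0 := by
  have h := congrArg (MvPolynomial.C (σ := Fin (m + 1))) (krel G)
  rw [F4, map_add, map_add, map_add, map_mul, map_pow, map_pow, MvPolynomial.aeval_X,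
    MvPolynomial.aeval_X, MvPolynomial.aeval_X, MvPolynomial.aeval_rename]
  rw [map_add, map_add, map_add, map_mul, map_pow, map_pow, map_zero] at h
  have h1 : MvPolynomial.C (σ := Fin (m + 1)) (MvPolynomial.aeval (fun j => kg G (Sum.inr j)) G) =
      MvPolynomial.aeval (fun j => MvPolynomial.C (σ := Fin (m + 1)) (kg G (Sum.inr j))) G := by
    have := MvPolynomial.comp_aeval_apply (R := ℂ) (f := fun j => kg G (Sum.inr j))
      ((Algebra.ofId (KR G) (MvPolynomial (Fin (m + 1)) (KR G))).restrictScalars ℂ) G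
    exact this
  rw [h1] at h
  exact h

/-- from the cylinder to the polynomial ring over the base -/
def bwd : Cy m G →ₐ[ℂ] MvPolynomial (Fin (m + 1)) (KR G) :=
  Ideal.Quotient.liftₐ _ (MvPolynomial.aeval (vb m G)) (by
    intro a ha
    obtain ⟨q, rfl⟩ := Ideal.mem_span_singleton'.1 ha
    rw [map_mul, aeval_vb, mul_zero])

theorem bwd_gen (i : Ix m k) : bwd m G (gen _ i) = vb m G i := by
  change MvPolynomial.aeval (vb m G) (MvPolynomial.X i) = _
  rw [MvPolynomial.aeval_X]

theorem ext_gen {σ : Type} {F : MvPolynomial σ ℂ} {B : Type} [CommRing B] [Algebra ℂ B]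
    {f g : QR F →ₐ[ℂ] B} (h : ∀ i, f (gen F i) = g (gen F i)) : f = g := by
  refine AlgHom.ext fun a => ?_
  obtain ⟨p, rfl⟩ := Ideal.Quotient.mk_surjective a
  rw [mk_aeval, MvPolynomial.comp_aeval_apply, MvPolynomial.comp_aeval_apply]
  congr 1
  congr 1
  exact funext h

theorem fwd_C (a : KR G) : fwd m G (MvPolynomial.C a) = bs m G a :=
  MvPolynomial.aevalTower_C _ _ _

theorem fwd_X (i : Fin (m + 1)) : fwd m G (MvPolynomial.X i) = cw m G i :=
  MvPolynomial.aevalTower_X _ _ _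

theorem bs_kg (i : Fin 3 ⊕ Fin k) : bs m G (kg G i) = va m G i := by
  rw [kg, bs_mk, MvPolynomial.aeval_X]

theorem fwd_bwd : (fwd m G).comp (bwd m G) = AlgHom.id ℂ _ := by
  apply ext_gen
  intro i
  rw [AlgHom.comp_apply, bwd_gen, AlgHom.id_apply]
  rcases i with i | i | i
  · change fwd m G (MvPolynomial.C (kg G (Sum.inl i))) = _
    rw [fwd_C, bs_kg]
    fin_cases i <;> rfl
  · exact fwd_X m G i
  · change fwd m G (MvPolynomial.C (kg G (Sum.inr i))) = _
    rw [fwd_C, bs_kg]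
    rfl

theorem bwd_fwd : (bwd m G).comp (fwd m G) = AlgHom.id ℂ _ := by
  have h0 : ∀ i, bwd m G (bs m G (kg G i)) = MvPolynomial.C (kg G i) := by
    intro i
    rw [bs_kg]
    rcases i with i | i
    · fin_cases i
      · exact bwd_gen m G _
      · exact bwd_gen m G _
      · exact bwd_gen m G _
    · exact bwd_gen m G _
  have h1 : ∀ a : KR G, bwd m G (bs m G a) = MvPolynomial.C a := by
    intro a
    obtain ⟨p, rfl⟩ := Ideal.Quotient.mk_surjective a
    induction p using MvPolynomial.induction_on with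
    | C c =>
      change bwd m G (bs m G (algebraMap ℂ (KR G) c)) = _
      rw [AlgHom.commutes, AlgHom.commutes]
      rfl
    | add p q hp hq => rw [map_add, map_add, map_add, hp, hq, map_add]
    | mul_X p i hp =>
      rw [map_mul, map_mul, map_mul, hp, map_mul]
      congr 1
      exact h0 i
  refine AlgHom.ext fun p => ?_
  rw [AlgHom.comp_apply, AlgHom.id_apply]
  induction p using MvPolynomial.induction_on with
  | C a => rw [fwd_C, h1]
  | add p q hp hq => rw [map_add, map_add, hp, hq]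
  | mul_X p i hp =>
    rw [map_mul, map_mul, hp, fwd_X]
    congr 1
    exact bwd_gen m G _

/-- the cylinder is the product with the affine space -/
def cyl : MvPolynomial (Fin (m + 1)) (KR G) ≃ₐ[ℂ] Cy m G :=
  AlgEquiv.ofAlgHom (fwd m G) (bwd m G) (fwd_bwd m G) (bwd_fwd m G)

end iso

/-- the cylinders are flexible -/
theorem flexible_cyl {k : ℕ} {G : MvPolynomial (Fin k) ℂ} (hG : G ≠ 0) {m : ℕ} (hm : 1 ≤ m) :
    Flexible (MvPolynomial (Fin m) (KR G)) := by
  obtain ⟨m, rfl⟩ := Nat.exists_eq_add_of_le' hm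
  exact Flexible.of_equiv (cyl m G) fun φ => flex hG φ

end

end Pool.Agent.Helper72.KRF
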