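import Pool.Agent.Helper72.KRF.Exp

/-!
# The degree function of a derivation on the elements killed by a power of it
-/

set_option autoImplicit false
set_option linter.unusedSectionVars false

namespace Pool.Agent.Helper72.KRF

open Finset

noncomputable section

variable {A : Type*} [CommRing A] [IsDomain A] [Algebra ℂ A] (δ : Derivation ℂ A A)

/-- `n` is the degree of `a`: the last `n` with `δⁿ a ≠ 0`. -/
def Dg (a : A) (n : ℕ) : Prop := (⇑δ)^[n] a ≠ 0 ∧ (⇑δ)^[n + 1] a = 0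

variable {δ}

theorem Dg.ne {a : A} {n : ℕ} (h : Dg δ a n) : a ≠ 0 := by
  intro h0
  apply h.1
  rw [h0, iterate_map_zero]

theorem Dg.mem {a : A} {n : ℕ} (h : Dg δ a n) : a ∈ nil δ := ⟨n + 1, h.2⟩

theorem exists_Dg {a : A} (ha : a ∈ nil δ) (h0 : a ≠ 0) : ∃ n, Dg δ a n := by
  classical
  have h : ∃ k, (⇑δ)^[k] a = 0 := ha
  have h1 : Nat.find h ≠ 0 := by
    intro h2
    have h3 := Nat.find_spec h
    rw [h2] at h3
    exact h0 h3
  obtain ⟨n, hn⟩ := Nat.exists_eq_succ_of_ne_zero h1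
  refine ⟨n, ?_, ?_⟩
  · exact Nat.find_min h (by omega)
  · have h3 := Nat.find_spec h
    rw [hn] at h3
    exact h3

theorem Dg.unique {a : A} {n m : ℕ} (h : Dg δ a n) (h' : Dg δ a m) : n = m := by
  rcases lt_trichotomy n m with h1 | h1 | h1
  · exact absurd (iter_le h.2 (by omega)) h'.1
  · exact h1
  · exact absurd (iter_le h'.2 (by omega)) h.1

theorem Dg_zero {a : A} (h0 : a ≠ 0) (h : δ a = 0) : Dg δ a 0 := ⟨h0, h⟩

theorem Dg.der_zero {a : A} (h : Dg δ a 0) : δ a = 0 := h.2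

theorem Dg.mul {a b : A} {n m : ℕ} (ha : Dg δ a n) (hb : Dg δ b m) : Dg δ (a * b) (n + m) := by
  constructor
  · have h1 : (⇑δ)^[n + m] (a * b) = ((n + m).choose n) • ((⇑δ)^[n] a * (⇑δ)^[m] b) := by
      rw [leib, Finset.sum_eq_single (n, m)]
      · rintro ⟨i, j⟩ hij hne
        have hs : i + j = n + m := mem_antidiagonal.1 hij
        rcases lt_trichotomy i n with h | h | h
        · simp only [iter_le hb.2 (by omega : m + 1 ≤ j), mul_zero, smul_zero]
        · exact absurd (Prod.ext_iff.2 ⟨h, by simp only; omega⟩) hne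
        · simp only [iter_le ha.2 (by omega : n + 1 ≤ i), zero_mul, smul_zero]
      · intro h
        exact absurd (mem_antidiagonal.2 (rfl : (n, m).1 + (n, m).2 = n + m)) h
    rw [h1, nsmul_eq_mul]
    have h2 : (((n + m).choose n : ℕ) : A) ≠ 0 := by
      have h3 : (((n + m).choose n : ℕ) : A) = algebraMap ℂ A (((n + m).choose n : ℕ) : ℂ) := by
        rw [map_natCast]
      rw [h3]
      intro h4
      have h5 := (algebraMap ℂ A).injective (h4.trans (map_zero _).symm)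
      have h6 : (n + m).choose n = 0 := by exact_mod_cast h5
      exact (Nat.choose_pos (Nat.le_add_right n m)).ne' h6
    exact mul_ne_zero h2 (mul_ne_zero ha.1 hb.1)
  · rw [leib]
    refine Finset.sum_eq_zero fun ⟨i, j⟩ hij => ?_
    have hs : i + j = n + m + 1 := mem_antidiagonal.1 hij
    rcases le_or_gt i n with h | h
    · simp only [iter_le hb.2 (by omega : m + 1 ≤ j), mul_zero, smul_zero]
    · simp only [iter_le ha.2 (by omega : n + 1 ≤ i), zero_mul, smul_zero]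

theorem Dg_one : Dg δ (1 : A) 0 := Dg_zero one_ne_zero δ.map_one_eq_zero

theorem Dg.pow {a : A} {n : ℕ} (ha : Dg δ a n) (k : ℕ) : Dg δ (a ^ k) (k * n) := by
  induction k with
  | zero => simpa using Dg_one
  | succ k ih =>
    rw [pow_succ, add_mul, one_mul]
    exact ih.mul ha

/-- the kernel is factorially closed -/
theorem ker_of_mul {a b : A} (ha : a ∈ nil δ) (hb : b ∈ nil δ) (h0 : a * b ≠ 0)
    (h : δ (a * b) = 0) : δ a = 0 ∧ δ b = 0 := by
  obtain ⟨n, hn⟩ := exists_Dg ha (left_ne_zero_of_mul h0)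
  obtain ⟨m, hm⟩ := exists_Dg hb (right_ne_zero_of_mul h0)
  have h1 := (hn.mul hm).unique (Dg_zero h0 h)
  have h2 : n = 0 := by omega
  have h3 : m = 0 := by omega
  subst h2 h3
  exact ⟨hn.2, hm.2⟩

theorem ker_of_pow {a : A} {k : ℕ} (hk : k ≠ 0) (ha : a ∈ nil δ) (h0 : a ≠ 0)
    (h : δ (a ^ k) = 0) : δ a = 0 := by
  obtain ⟨n, hn⟩ := exists_Dg ha h0
  have h1 := (hn.pow k).unique (Dg_zero (pow_ne_zero k h0) h)
  have h2 : n = 0 := by
    rcases Nat.mul_eq_zero.1 h1 with h | h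
    · exact absurd h hk
    · exact h
  subst h2
  exact hn.2

theorem Dg.add {a b : A} {n m : ℕ} (ha : Dg δ a n) (hb : Dg δ b m) (h : n < m) :
    Dg δ (a + b) m := by
  constructor
  · rw [iterate_map_add, iter_le ha.2 (by omega), zero_add]
    exact hb.1
  · rw [iterate_map_add, iter_le ha.2 (by omega), hb.2, zero_add]

theorem Dg.der {a : A} {n : ℕ} (ha : Dg δ a (n + 1)) : Dg δ (δ a) n := by
  constructor
  · rw [← Function.iterate_succ_apply]
    exact ha.1
  · rw [← Function.iterate_succ_apply]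
    exact ha.2

theorem der_mem {a : A} (ha : a ∈ nil δ) : δ a ∈ nil δ := by
  obtain ⟨k, hk⟩ := ha
  exact ⟨k, by rw [← Function.iterate_succ_apply]; exact iter_le hk (Nat.le_succ k)⟩

theorem nat_ne {k : ℕ} (hk : k ≠ 0) : (k : A) ≠ 0 := by
  intro h
  apply hk
  have h3 : ((k : ℕ) : A) = algebraMap ℂ A ((k : ℕ) : ℂ) := by rw [map_natCast]
  rw [h3] at h
  have h5 := (algebraMap ℂ A).injective (h.trans (map_zero _).symm)
  exact_mod_cast h5

theorem der_nat (k : ℕ) : δ (k : A) = 0 := δ.map_natCast k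

theorem lemA_aux {u v α β c : A} {a b p q : ℕ} (hb : 2 ≤ b)
    (hβ : β ≠ 0) (hdα : δ α = 0) (hdβ : δ β = 0) (hc : c ≠ 0) (hdc : δ c = 0)
    (ha : 2 ≤ a) (h : α * u ^ a + β * v ^ b = c) (hu : Dg δ u (p + 1)) (hv : Dg δ v (q + 1)) :
    q + 1 ≤ p := by
  have h1 : α * (a * u ^ (a - 1) * δ u) + β * (b * v ^ (b - 1) * δ v) = 0 := by
    have h2 := congrArg (⇑δ) h
    rw [map_add, Derivation.leibniz, Derivation.leibniz, Derivation.leibniz_pow,
      Derivation.leibniz_pow, hdα, hdβ, hdc] at h2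
    simp only [smul_eq_mul, nsmul_eq_mul, mul_zero, add_zero] at h2
    linear_combination h2
  obtain ⟨a', rfl⟩ : ∃ a', a = a' + 1 := ⟨a - 1, by omega⟩
  obtain ⟨b', rfl⟩ : ∃ b', b = b' + 1 := ⟨b - 1, by omega⟩
  simp only [Nat.add_sub_cancel] at h1
  set W : A := ((a' + 1 : ℕ) : A) * v * δ u - ((b' + 1 : ℕ) : A) * u * δ v with hW
  have h3 : ((a' + 1 : ℕ) : A) * c * δ u = β * v ^ b' * W := by
    rw [hW, ← h]
    linear_combination u * h1
  have h4 : Dg δ (((a' + 1 : ℕ) : A) * c * δ u) p := by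
    have h5 : Dg δ (((a' + 1 : ℕ) : A) * c) 0 :=
      Dg_zero (mul_ne_zero (nat_ne (by omega)) hc) (by
        rw [Derivation.leibniz, hdc, der_nat, smul_zero, smul_zero, add_zero])
    have h6 := h5.mul hu.der
    rwa [zero_add] at h6
  have hW0 : W ≠ 0 := by
    intro h0
    rw [h0, mul_zero] at h3
    exact h4.ne h3
  have hWm : W ∈ nil δ := by
    rw [hW]
    refine sub_mem (mul_mem (mul_mem (natCast_mem _ _) hv.mem) (der_mem hu.mem))
      (mul_mem (mul_mem (natCast_mem _ _) hu.mem) (der_mem hv.mem))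
  obtain ⟨r, hr⟩ := exists_Dg hWm hW0
  have h7 : Dg δ (β * v ^ b' * W) (0 + b' * (q + 1) + r) :=
    ((Dg_zero hβ hdβ).mul (hv.pow b')).mul hr
  rw [← h3] at h7
  have h8 := h4.unique h7
  have h9 : q + 1 ≤ b' * (q + 1) := Nat.le_mul_of_pos_left _ (by omega)
  omega

/-- If `α u^a + β v^b = c` with `α, β, c` in the kernel, not zero, `a, b ≥ 2`, then `u` and `v` are
in the kernel. -/
theorem lemA {u v α β c : A} {a b : ℕ} (ha : 2 ≤ a) (hb : 2 ≤ b) (hα : α ≠ 0) (hβ : β ≠ 0)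
    (hdα : δ α = 0) (hdβ : δ β = 0) (hc : c ≠ 0) (hdc : δ c = 0)
    (hu : u ∈ nil δ) (hv : v ∈ nil δ) (h : α * u ^ a + β * v ^ b = c) : δ u = 0 ∧ δ v = 0 := by
  -- one of them in the kernel implies the other
  have key : ∀ {u v α β : A} {a b : ℕ}, 2 ≤ b → β ≠ 0 → δ α = 0 → δ β = 0 → v ∈ nil δ →
      α * u ^ a + β * v ^ b = c → δ u = 0 → δ v = 0 := by
    intro u v α β a b hb hβ hdα hdβ hv h hu0
    have h1 : β * v ^ b = c - α * u ^ a := by rw [← h]; ring
    have h2 : δ (β * v ^ b) = 0 := by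
      rw [h1, map_sub, hdc, Derivation.leibniz, Derivation.leibniz_pow, hu0, hdα]
      simp
    by_cases hv0 : v = 0
    · rw [hv0, map_zero]
    · have h3 : β * v ^ b ≠ 0 := mul_ne_zero hβ (pow_ne_zero b hv0)
      have h4 := (ker_of_mul (nil_of_zero hdβ) (pow_mem hv b) h3 h2).2
      exact ker_of_pow (by omega) hv hv0 h4
  have h' : β * v ^ b + α * u ^ a = c := by rw [add_comm]; exact h
  by_cases hu0 : δ u = 0
  · exact ⟨hu0, key hb hβ hdα hdβ hv h hu0⟩
  by_cases hv0 : δ v = 0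
  · exact ⟨key ha hα hdβ hdα hu h' hv0, hv0⟩
  exfalso
  have hu1 : u ≠ 0 := fun h0 => hu0 (by rw [h0, map_zero])
  have hv1 : v ≠ 0 := fun h0 => hv0 (by rw [h0, map_zero])
  obtain ⟨p, hp⟩ := exists_Dg hu hu1
  obtain ⟨q, hq⟩ := exists_Dg hv hv1
  cases p with
  | zero => exact hu0 hp.2
  | succ p =>
    cases q with
    | zero => exact hv0 hq.2
    | succ q =>
      have h1 := lemA_aux hb hβ hdα hdβ hc hdc ha h hp hq
      have h2 := lemA_aux ha hα hdβ hdα hc hdc hb h' hq hp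
      omega

end

end Pool.Agent.Helper72.KRF
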