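import Mathlib

/-!
# The exponential of a locally nilpotent derivation

`expP D : A →ₐ[ℂ] A[X]`, `a ↦ ∑ Dⁿ a / n! Xⁿ`, and the automorphisms `expA D s`.
-/

set_option autoImplicit false

namespace Pool.Agent.Helper72.KRF

open Finset Polynomial

noncomputable section

variable {A : Type*} [CommRing A] [Algebra ℂ A]

/-- Locally nilpotent derivations. -/
def LN (D : Derivation ℂ A A) : Prop := ∀ a : A, ∃ k : ℕ, (⇑D)^[k] a = 0

theorem iter_smul (D : Derivation ℂ A A) (n : ℕ) (c : ℂ) (a : A) :
    (⇑D)^[n] (c • a) = c • (⇑D)^[n] a := by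
  induction n with
  | zero => rfl
  | succ n ih => rw [Function.iterate_succ_apply', ih, D.map_smul, Function.iterate_succ_apply']

theorem iter_sum {ι : Type*} (D : Derivation ℂ A A) (n : ℕ) (s : Finset ι) (f : ι → A) :
    (⇑D)^[n] (∑ i ∈ s, f i) = ∑ i ∈ s, (⇑D)^[n] (f i) := by
  induction n with
  | zero => rfl
  | succ n ih =>
    rw [Function.iterate_succ_apply', ih, map_sum]
    exact Finset.sum_congr rfl fun i _ => (Function.iterate_succ_apply' _ _ _).symm

/-- Leibniz formula. -/
theorem leib (D : Derivation ℂ A A) (n : ℕ) (a b : A) :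
    (⇑D)^[n] (a * b) =
      ∑ ij ∈ antidiagonal n, (n.choose ij.1) • ((⇑D)^[ij.1] a * (⇑D)^[ij.2] b) := by
  induction n with
  | zero => simp
  | succ n ih =>
    rw [sum_antidiagonal_choose_succ_nsmul (M := A) (fun i j => (⇑D)^[i] a * (⇑D)^[j] b) n]
    simp only [Function.iterate_succ_apply', ih, map_sum, map_nsmul, Derivation.leibniz,
      smul_eq_mul, smul_add, sum_add_distrib]
    congr 1
    refine sum_congr rfl fun ⟨i, j⟩ hij ↦ ?_
    rw [n.choose_symm_of_eq_add (mem_antidiagonal.1 hij).symm, mul_comm]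

theorem iter_le {D : Derivation ℂ A A} {k n : ℕ} {a : A} (h : (⇑D)^[k] a = 0) (hn : k ≤ n) :
    (⇑D)^[n] a = 0 := by
  obtain ⟨m, rfl⟩ := Nat.exists_eq_add_of_le hn
  rw [add_comm, Function.iterate_add_apply, h, iterate_map_zero]

/-- The elements killed by a power of `D`. -/
def nil (D : Derivation ℂ A A) : Subalgebra ℂ A where
  carrier := {a | ∃ k : ℕ, (⇑D)^[k] a = 0}
  mul_mem' := by
    rintro a b ⟨k, hk⟩ ⟨l, hl⟩
    refine ⟨k + l, ?_⟩
    rw [leib]
    refine Finset.sum_eq_zero fun ⟨i, j⟩ hij => ?_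
    have hs : i + j = k + l := mem_antidiagonal.1 hij
    rcases le_or_gt k i with h | h
    · simp only [iter_le hk h, zero_mul, smul_zero]
    · have h' : l ≤ j := by omega
      simp only [iter_le hl h', mul_zero, smul_zero]
  add_mem' := by
    rintro a b ⟨k, hk⟩ ⟨l, hl⟩
    refine ⟨k + l, ?_⟩
    rw [iterate_map_add, iter_le hk (Nat.le_add_right k l), iter_le hl (Nat.le_add_left l k),
      add_zero]
  algebraMap_mem' c := ⟨1, by simp⟩

theorem mem_nil {D : Derivation ℂ A A} {a : A} : a ∈ nil D ↔ ∃ k : ℕ, (⇑D)^[k] a = 0 := Iff.rfl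

theorem nil_of {D : Derivation ℂ A A} {a : A} (h : D a ∈ nil D) : a ∈ nil D := by
  obtain ⟨k, hk⟩ := h
  exact ⟨k + 1, by rw [Function.iterate_succ_apply]; exact hk⟩

theorem nil_of_zero {D : Derivation ℂ A A} {a : A} (h : D a = 0) : a ∈ nil D :=
  ⟨1, by rw [Function.iterate_one]; exact h⟩

theorem LN_iff {D : Derivation ℂ A A} : LN D ↔ nil D = ⊤ := by
  constructor
  · intro h
    rw [eq_top_iff]
    exact fun a _ => h a
  · intro h a
    have : a ∈ nil D := by rw [h]; exact Algebra.mem_top
    exact this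

/-- The exponential as a polynomial. -/
def expP (D : Derivation ℂ A A) (hD : LN D) : A →ₐ[ℂ] A[X] := by
  classical
  let f : A → A[X] := fun a =>
    ∑ n ∈ range (Nat.find (hD a)), C (((n.factorial : ℂ)⁻¹) • (⇑D)^[n] a) * X ^ n
  have hf : ∀ a n, (f a).coeff n = ((n.factorial : ℂ)⁻¹) • (⇑D)^[n] a := by
    intro a n
    simp only [f, finsetSum_coeff, coeff_C_mul, coeff_X_pow, mul_ite, mul_one, mul_zero,
      Finset.sum_ite_eq, Finset.mem_range]
    split_ifs with h
    · rfl
    · rw [iter_le (Nat.find_spec (hD a)) (not_lt.1 h), smul_zero]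
  exact
    { toFun := f
      map_one' := by
        ext n
        rw [hf, coeff_one]
        cases n with
        | zero => simp
        | succ n =>
          rw [Function.iterate_succ_apply, D.map_one_eq_zero, iterate_map_zero, smul_zero]
          simp
      map_zero' := by
        ext n
        rw [hf, iterate_map_zero, smul_zero, coeff_zero]
      map_add' := fun a b => by
        ext n
        rw [coeff_add, hf, hf, hf, iterate_map_add, smul_add]
      map_mul' := fun a b => by
        ext n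
        rw [coeff_mul, hf, leib, Finset.smul_sum]
        refine sum_congr rfl fun ⟨i, j⟩ hij ↦ ?_
        have hs : i + j = n := mem_antidiagonal.1 hij
        simp only [hf]
        rw [smul_mul_smul_comm, ← Nat.cast_smul_eq_nsmul ℂ, smul_smul]
        congr 1
        subst hs
        have h1 := Nat.add_choose_mul_factorial_mul_factorial i j
        rw [← Nat.choose_symm_add] at h1
        have h2 : ((i + j).choose i : ℂ) * (i.factorial : ℂ) * (j.factorial : ℂ) =
            ((i + j).factorial : ℂ) := by exact_mod_cast h1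
        have hi : (i.factorial : ℂ) ≠ 0 := by exact_mod_cast Nat.factorial_ne_zero i
        have hj : (j.factorial : ℂ) ≠ 0 := by exact_mod_cast Nat.factorial_ne_zero j
        have hij' : ((i + j).factorial : ℂ) ≠ 0 := by
          exact_mod_cast Nat.factorial_ne_zero (i + j)
        field_simp
        linear_combination h2
      commutes' := fun c => by
        ext n
        rw [hf]
        cases n with
        | zero => simp
        | succ n =>
          rw [Function.iterate_succ_apply, D.map_algebraMap, iterate_map_zero, smul_zero]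
          rw [Polynomial.algebraMap_apply, coeff_C_succ] }

theorem expP_coeff (D : Derivation ℂ A A) (hD : LN D) (a : A) (n : ℕ) :
    (expP D hD a).coeff n = ((n.factorial : ℂ)⁻¹) • (⇑D)^[n] a := by
  classical
  change (∑ n ∈ range (Nat.find (hD a)), C (((n.factorial : ℂ)⁻¹) • (⇑D)^[n] a) * X ^ n).coeff n
    = _
  simp only [finsetSum_coeff, coeff_C_mul, coeff_X_pow, mul_ite, mul_one, mul_zero,
    Finset.sum_ite_eq, Finset.mem_range]
  split_ifs with h
  · rfl
  · rw [iter_le (Nat.find_spec (hD a)) (not_lt.1 h), smul_zero]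

/-- The endomorphism `exp (s D)`. -/
def expE (D : Derivation ℂ A A) (hD : LN D) (s : ℂ) : A →ₐ[ℂ] A :=
  ((Polynomial.aeval (R := A) (algebraMap ℂ A s)).restrictScalars ℂ).comp (expP D hD)

theorem expE_apply (D : Derivation ℂ A A) (hD : LN D) (s : ℂ) (a : A) {N : ℕ}
    (hN : (⇑D)^[N] a = 0) :
    expE D hD s a = ∑ n ∈ range N, (s ^ n * (n.factorial : ℂ)⁻¹) • (⇑D)^[n] a := by
  have h1 : expE D hD s a = (expP D hD a).eval (algebraMap ℂ A s) := by
    simp [expE]
  have hdeg : (expP D hD a).natDegree < N + 1 := by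
    rw [Nat.lt_succ_iff, Polynomial.natDegree_le_iff_coeff_eq_zero]
    intro n hn
    rw [expP_coeff, iter_le hN hn.le, smul_zero]
  rw [h1, Polynomial.eval_eq_sum_range' hdeg, Finset.sum_range_succ]
  rw [expP_coeff, hN, smul_zero, zero_mul, add_zero]
  refine Finset.sum_congr rfl fun n _ => ?_
  rw [expP_coeff, ← map_pow, mul_comm, ← Algebra.smul_def, smul_smul]

theorem expE_expE (D : Derivation ℂ A A) (hD : LN D) (s t : ℂ) (a : A) :
    expE D hD s (expE D hD t a) = expE D hD (s + t) a := by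
  obtain ⟨N, hN⟩ := hD a
  rw [expE_apply D hD t a hN, map_sum, expE_apply D hD (s + t) a hN]
  have h1 : ∀ m ∈ range N, expE D hD s ((t ^ m * (m.factorial : ℂ)⁻¹) • (⇑D)^[m] a) =
      ∑ n ∈ range N, ((t ^ m * (m.factorial : ℂ)⁻¹) * (s ^ n * (n.factorial : ℂ)⁻¹)) •
        (⇑D)^[n + m] a := by
    intro m _
    have hm : (⇑D)^[N] ((⇑D)^[m] a) = 0 := by
      rw [← Function.iterate_add_apply, add_comm, Function.iterate_add_apply, hN,
        iterate_map_zero]
    rw [map_smul, expE_apply D hD s _ hm, Finset.smul_sum]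
    refine Finset.sum_congr rfl fun n _ => ?_
    rw [smul_smul, Function.iterate_add_apply]
  rw [Finset.sum_congr rfl h1]
  -- compare with the antidiagonals
  have h2 : ∀ k ∈ range N, ((s + t) ^ k * (k.factorial : ℂ)⁻¹) • (⇑D)^[k] a =
      ∑ mn ∈ antidiagonal k, ((t ^ mn.1 * (mn.1.factorial : ℂ)⁻¹) *
        (s ^ mn.2 * (mn.2.factorial : ℂ)⁻¹)) • (⇑D)^[mn.2 + mn.1] a := by
    intro k _
    have h3 : ∀ mn ∈ antidiagonal k, ((t ^ mn.1 * (mn.1.factorial : ℂ)⁻¹) *
        (s ^ mn.2 * (mn.2.factorial : ℂ)⁻¹)) • (⇑D)^[mn.2 + mn.1] a =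
        ((t ^ mn.1 * (mn.1.factorial : ℂ)⁻¹) *
        (s ^ mn.2 * (mn.2.factorial : ℂ)⁻¹)) • (⇑D)^[k] a := by
      intro mn hmn
      rw [add_comm, mem_antidiagonal.1 hmn]
    rw [Finset.sum_congr rfl h3, ← Finset.sum_smul]
    congr 1
    rw [add_comm s t, (Commute.all t s).add_pow', Finset.sum_mul]
    refine Finset.sum_congr rfl fun ⟨i, j⟩ hij => ?_
    have hs : i + j = k := mem_antidiagonal.1 hij
    subst hs
    have h4 := Nat.add_choose_mul_factorial_mul_factorial i j
    rw [← Nat.choose_symm_add] at h4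
    have h5 : ((i + j).choose i : ℂ) * (i.factorial : ℂ) * (j.factorial : ℂ) =
        ((i + j).factorial : ℂ) := by exact_mod_cast h4
    have hi : (i.factorial : ℂ) ≠ 0 := by exact_mod_cast Nat.factorial_ne_zero i
    have hj : (j.factorial : ℂ) ≠ 0 := by exact_mod_cast Nat.factorial_ne_zero j
    have hij' : ((i + j).factorial : ℂ) ≠ 0 := by
      exact_mod_cast Nat.factorial_ne_zero (i + j)
    simp only [nsmul_eq_mul]
    field_simp
    linear_combination (t ^ i * s ^ j) * h5
  rw [Finset.sum_congr rfl h2, ← Finset.sum_product']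
  have h6 : ∑ p ∈ range N ×ˢ range N, ((t ^ p.1 * (p.1.factorial : ℂ)⁻¹) *
        (s ^ p.2 * (p.2.factorial : ℂ)⁻¹)) • (⇑D)^[p.2 + p.1] a =
      ∑ p ∈ (range N ×ˢ range N).filter (fun p => p.1 + p.2 < N),
        ((t ^ p.1 * (p.1.factorial : ℂ)⁻¹) *
        (s ^ p.2 * (p.2.factorial : ℂ)⁻¹)) • (⇑D)^[p.2 + p.1] a := by
    rw [Finset.sum_filter]
    refine Finset.sum_congr rfl fun p _ => ?_
    split_ifs with h
    · rfl
    · rw [iter_le hN (by omega), smul_zero]
  rw [h6, ← Finset.sum_fiberwise_of_maps_to (t := range N) (g := fun p : ℕ × ℕ => p.1 + p.2)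
    (fun p hp => by simpa using (Finset.mem_filter.1 hp).2)]
  refine Finset.sum_congr rfl fun k hk => ?_
  congr 1
  ext ⟨m, n⟩
  simp only [Finset.mem_filter, Finset.mem_product, Finset.mem_range,
    HasAntidiagonal.mem_antidiagonal] at hk ⊢
  constructor
  · rintro ⟨_, h⟩
    exact h
  · intro h
    exact ⟨⟨⟨by omega, by omega⟩, by omega⟩, h⟩

theorem expE_zero (D : Derivation ℂ A A) (hD : LN D) (a : A) : expE D hD 0 a = a := by
  obtain ⟨N, hN⟩ := hD a
  have hN' : (⇑D)^[N + 1] a = 0 := iter_le hN (Nat.le_succ N)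
  rw [expE_apply D hD 0 a hN', Finset.sum_range_succ']
  simp

/-- The automorphism `exp (s D)`. -/
def expA (D : Derivation ℂ A A) (hD : LN D) (s : ℂ) : A ≃ₐ[ℂ] A :=
  AlgEquiv.ofAlgHom (expE D hD s) (expE D hD (-s))
    (AlgHom.ext fun a => by
      rw [AlgHom.comp_apply, expE_expE, add_neg_cancel, expE_zero, AlgHom.id_apply])
    (AlgHom.ext fun a => by
      rw [AlgHom.comp_apply, expE_expE, neg_add_cancel, expE_zero, AlgHom.id_apply])

theorem expA_apply (D : Derivation ℂ A A) (hD : LN D) (s : ℂ) (a : A) :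
    expA D hD s a = expE D hD s a := rfl

/-- values of order at most one -/
theorem expA_one (D : Derivation ℂ A A) (hD : LN D) (s : ℂ) {a : A} (h : D (D a) = 0) :
    expA D hD s a = a + s • D a := by
  rw [expA_apply, expE_apply D hD s a (N := 2) (by simpa using h)]
  simp [Finset.sum_range_succ]

theorem expA_zero (D : Derivation ℂ A A) (hD : LN D) (s : ℂ) {a : A} (h : D a = 0) :
    expA D hD s a = a := by
  rw [expA_one D hD s (by rw [h, map_zero]), h, smul_zero, add_zero]

theorem expA_two (D : Derivation ℂ A A) (hD : LN D) (s : ℂ) {a : A} (h : D (D (D a)) = 0) :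
    expA D hD s a = a + s • D a + (s ^ 2 / 2) • D (D a) := by
  rw [expA_apply, expE_apply D hD s a (N := 3) (by simpa using h)]
  simp [Finset.sum_range_succ, Nat.factorial, div_eq_mul_inv]

end

end Pool.Agent.Helper72.KRF
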