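import Pool.Agent.Helper72.KRF.Exp

/-!
# Flexible points, and quotients of polynomial rings by one polynomial
-/

set_option autoImplicit false

namespace Pool.Agent.Helper72.KRF

open Finset

noncomputable section

section Points

variable {A : Type} [CommRing A] [Algebra ℂ A]

/-- The span of the values of the locally nilpotent derivations at the point `φ`. -/
def VF (φ : A →ₐ[ℂ] ℂ) : Submodule ℂ (A →ₗ[ℂ] ℂ) :=
  Submodule.span ℂ {ℓ : A →ₗ[ℂ] ℂ | ∃ D : Derivation ℂ A A,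
    (∀ a : A, ∃ k : ℕ, (⇑D)^[k] a = 0) ∧ ℓ = φ.toLinearMap.comp D.toLinearMap}

/-- Tangent vectors at `φ`. -/
def PD (φ : A →ₐ[ℂ] ℂ) (δ : A →ₗ[ℂ] ℂ) : Prop :=
  ∀ a b : A, δ (a * b) = φ a * δ b + φ b * δ a

/-- Flexible points. -/
def FlexAt (φ : A →ₐ[ℂ] ℂ) : Prop := ∀ δ : A →ₗ[ℂ] ℂ, PD φ δ → δ ∈ VF φ

theorem PD.sub {φ : A →ₐ[ℂ] ℂ} {δ δ' : A →ₗ[ℂ] ℂ} (h : PD φ δ) (h' : PD φ δ') :
    PD φ (δ - δ') := by
  intro a b
  rw [LinearMap.sub_apply, LinearMap.sub_apply, LinearMap.sub_apply, h, h']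
  ring

theorem PD.smul {φ : A →ₐ[ℂ] ℂ} {δ : A →ₗ[ℂ] ℂ} (c : ℂ) (h : PD φ δ) : PD φ (c • δ) := by
  intro a b
  rw [LinearMap.smul_apply, LinearMap.smul_apply, LinearMap.smul_apply, h]
  simp only [smul_eq_mul]
  ring

theorem PD.one {φ : A →ₐ[ℂ] ℂ} {δ : A →ₗ[ℂ] ℂ} (h : PD φ δ) : δ 1 = 0 := by
  have h1 := h 1 1
  rw [mul_one, map_one φ] at h1
  linear_combination -h1

theorem PD.algebraMap {φ : A →ₐ[ℂ] ℂ} {δ : A →ₗ[ℂ] ℂ} (h : PD φ δ) (c : ℂ) :
    δ (algebraMap ℂ A c) = 0 := by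
  rw [Algebra.algebraMap_eq_smul_one, map_smul, h.one, smul_zero]

/-- value of a derivation at a point -/
def val (φ : A →ₐ[ℂ] ℂ) (D : Derivation ℂ A A) : A →ₗ[ℂ] ℂ :=
  φ.toLinearMap.comp D.toLinearMap

theorem val_apply (φ : A →ₐ[ℂ] ℂ) (D : Derivation ℂ A A) (a : A) : val φ D a = φ (D a) := rfl

theorem PD_val (φ : A →ₐ[ℂ] ℂ) (D : Derivation ℂ A A) : PD φ (val φ D) := by
  intro a b
  simp only [val_apply, Derivation.leibniz, smul_eq_mul, map_add, map_mul]

theorem val_mem (φ : A →ₐ[ℂ] ℂ) (D : Derivation ℂ A A) (hD : LN D) : val φ D ∈ VF φ :=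
  Submodule.subset_span ⟨D, hD, rfl⟩

/-- Conjugation of a derivation by an automorphism. -/
def conj (α : A ≃ₐ[ℂ] A) (D : Derivation ℂ A A) : Derivation ℂ A A :=
  Derivation.mk' (α.toLinearMap ∘ₗ D.toLinearMap ∘ₗ α.symm.toLinearMap) (by
    intro a b
    simp only [LinearMap.comp_apply, AlgEquiv.toLinearMap_apply, Derivation.coeFn_coe,
      map_mul, Derivation.leibniz, smul_eq_mul, map_add, AlgEquiv.apply_symm_apply])

theorem conj_apply (α : A ≃ₐ[ℂ] A) (D : Derivation ℂ A A) (a : A) :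
    conj α D a = α (D (α.symm a)) := rfl

theorem conj_iter (α : A ≃ₐ[ℂ] A) (D : Derivation ℂ A A) (n : ℕ) (a : A) :
    (⇑(conj α D))^[n] a = α ((⇑D)^[n] (α.symm a)) := by
  induction n with
  | zero => simp
  | succ n ih => rw [Function.iterate_succ_apply', ih, conj_apply, AlgEquiv.symm_apply_apply,
      Function.iterate_succ_apply']

theorem conj_LN (α : A ≃ₐ[ℂ] A) {D : Derivation ℂ A A} (hD : LN D) : LN (conj α D) := by
  intro a
  obtain ⟨k, hk⟩ := hD (α.symm a)
  exact ⟨k, by rw [conj_iter, hk, map_zero]⟩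

/-- Transport of flexible points. -/
theorem FlexAt.of_aut (α : A ≃ₐ[ℂ] A) {φ : A →ₐ[ℂ] ℂ} (h : FlexAt (φ.comp α.toAlgHom)) :
    FlexAt φ := by
  intro δ hδ
  have h1 : PD (φ.comp α.toAlgHom) (δ.comp α.toLinearMap) := by
    intro a b
    simp only [LinearMap.comp_apply, AlgEquiv.toLinearMap_apply, map_mul]
    exact hδ _ _
  have h2 := h _ h1
  let T : (A →ₗ[ℂ] ℂ) →ₗ[ℂ] (A →ₗ[ℂ] ℂ) := LinearMap.lcomp ℂ ℂ α.symm.toLinearMap
  have h3 : T (δ.comp α.toLinearMap) = δ := by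
    ext a
    simp [T]
  rw [← h3]
  have h4 : VF (φ.comp α.toAlgHom) ≤ (VF φ).comap T := by
    refine Submodule.span_le.2 ?_
    rintro ℓ ⟨D, hD, rfl⟩
    have : T ((φ.comp α.toAlgHom).toLinearMap.comp D.toLinearMap) = val φ (conj α D) := by
      ext a
      simp [T, val, conj_apply]
    change T _ ∈ VF φ
    rw [this]
    exact val_mem φ _ (conj_LN α hD)
  exact h4 h2

end Points

section Quotient

variable {σ : Type} {F : MvPolynomial σ ℂ}

/-- `ℂ[X] / (F)` -/
abbrev QR (F : MvPolynomial σ ℂ) : Type := MvPolynomial σ ℂ ⧸ Ideal.span {F}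

/-- the image of a variable -/
def gen (F : MvPolynomial σ ℂ) (i : σ) : QR F := Ideal.Quotient.mk _ (MvPolynomial.X i)

theorem mk_aeval (p : MvPolynomial σ ℂ) :
    (Ideal.Quotient.mk (Ideal.span {F}) p : QR F) = MvPolynomial.aeval (gen F) p := by
  have : (Ideal.Quotient.mkₐ ℂ (Ideal.span {F})) = MvPolynomial.aeval (gen F) := by
    apply MvPolynomial.algHom_ext
    intro i
    rw [MvPolynomial.aeval_X]
    rfl
  exact DFunLike.congr_fun this p

theorem aeval_F : MvPolynomial.aeval (gen F) F = (0 : QR F) := by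
  rw [← mk_aeval, Ideal.Quotient.eq_zero_iff_mem]
  exact Ideal.subset_span rfl

theorem sub_top {S : Subalgebra ℂ (QR F)} (h : ∀ i, gen F i ∈ S) : S = ⊤ := by
  rw [eq_top_iff]
  rintro a -
  obtain ⟨p, rfl⟩ := Ideal.Quotient.mk_surjective a
  rw [mk_aeval]
  have : MvPolynomial.aeval (gen F) p ∈ (MvPolynomial.aeval (R := ℂ) (gen F)).range := ⟨p, rfl⟩
  rw [← Algebra.adjoin_range_eq_range_aeval] at this
  refine (Algebra.adjoin_le ?_) this
  rintro _ ⟨i, rfl⟩
  exact h i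

/-- chain rule -/
theorem chain {τ : Type} [Fintype τ] {A M : Type*} [CommRing A] [Algebra ℂ A]
    [AddCommGroup M] [Module A M] [Module ℂ M]
    (d : Derivation ℂ A M) (f : τ → A) (p : MvPolynomial τ ℂ) :
    d (MvPolynomial.aeval f p) =
      ∑ j, (MvPolynomial.aeval f (MvPolynomial.pderiv j p)) • d (f j) := by
  classical
  induction p using MvPolynomial.induction_on with
  | C a => simp
  | add p q hp hq => simp only [map_add, hp, hq, add_smul, Finset.sum_add_distrib]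
  | mul_X p i hp =>
    rw [map_mul, MvPolynomial.aeval_X, Derivation.leibniz, hp]
    simp only [Derivation.leibniz, MvPolynomial.pderiv_X, smul_eq_mul, map_add, map_mul,
      MvPolynomial.aeval_X, add_smul, Finset.sum_add_distrib, Finset.smul_sum, smul_smul]
    congr 1
    rw [Finset.sum_eq_single i]
    · simp
    · intro j _ hj
      simp [hj.symm]
    · simp

/-- The derivation of `ℂ[X] / (F)` with given values on the variables. -/
def mkD (v : σ → QR F) (hv : MvPolynomial.mkDerivation ℂ v F = 0) :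
    Derivation ℂ (QR F) (QR F) :=
  Derivation.mk' (Submodule.liftQ ((Ideal.span {F}).restrictScalars ℂ)
    (MvPolynomial.mkDerivation ℂ v : MvPolynomial σ ℂ →ₗ[ℂ] QR F) (by
      intro p hp
      obtain ⟨q, rfl⟩ := Ideal.mem_span_singleton'.1 hp
      rw [LinearMap.mem_ker]
      change MvPolynomial.mkDerivation ℂ v (q * F) = 0
      rw [Derivation.leibniz, hv, smul_zero, zero_add]
      have : (Ideal.Quotient.mk (Ideal.span {F}) F : QR F) = 0 := by
        rw [mk_aeval, aeval_F]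
      change (Ideal.Quotient.mk (Ideal.span {F}) F) * _ = 0
      rw [this, zero_mul])) (by
    intro a b
    obtain ⟨p, rfl⟩ := Ideal.Quotient.mk_surjective a
    obtain ⟨q, rfl⟩ := Ideal.Quotient.mk_surjective b
    change MvPolynomial.mkDerivation ℂ v (p * q) = _
    rw [Derivation.leibniz]
    rfl)

theorem mkD_gen (v : σ → QR F) (hv : MvPolynomial.mkDerivation ℂ v F = 0) (i : σ) :
    mkD v hv (gen F i) = v i := by
  change MvPolynomial.mkDerivation ℂ v (MvPolynomial.X i) = v i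
  rw [MvPolynomial.mkDerivation_X]

/-- a tangent vector which vanishes on the variables is zero -/
theorem PD_ext {φ : QR F →ₐ[ℂ] ℂ} {δ : QR F →ₗ[ℂ] ℂ} (h : PD φ δ) (h0 : ∀ i, δ (gen F i) = 0) :
    δ = 0 := by
  refine LinearMap.ext fun a => ?_
  obtain ⟨p, rfl⟩ := Ideal.Quotient.mk_surjective a
  rw [mk_aeval, LinearMap.zero_apply]
  induction p using MvPolynomial.induction_on with
  | C a => rw [MvPolynomial.aeval_C, h.algebraMap]
  | add p q hp hq => rw [map_add, map_add, hp, hq, add_zero]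
  | mul_X p i hp => rw [map_mul, h, MvPolynomial.aeval_X, h0, hp, mul_zero, mul_zero, add_zero]

end Quotient

end

end Pool.Agent.Helper72.KRF
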