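import Pool.Agent.Helper72.KRF.Rig

/-!
# The kernels of the locally nilpotent derivations of `x + x² y + z² + t^l = 0`, `l ≥ 3` odd

`ker_le`: the kernel of a nonzero locally nilpotent derivation is contained in `ℂ[x, z, t]`.
-/

set_option autoImplicit false

namespace Pool.Agent.Helper72.KRF

open Finset

noncomputable section

variable {l : ℕ}

/-- the data of the top form of a locally nilpotent derivation -/
theorem top_const (hl : Odd l) (hl2 : 2 ≤ l) {D : Derivation ℂ (Al l) (Al l)}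
    {P' Q' R' : LL} {g : Wt} (hP : Tp (wl l) (PP D) g P') (hQ : Tp (wl l) (QQ D) g Q')
    (hR : Tp (wl l) (RR D) g R') (hz : mo 0 1 0 ∈ nil (DL P' Q' R'))
    (ht : mo 0 0 1 ∈ nil (DL P' Q' R')) (hx : mo 1 0 0 ∈ nil (DL P' Q' R'))
    (hy : Yh l ∈ nil (DL P' Q' R'))
    (hx0 : DL P' Q' R' (mo 1 0 0) ≠ 0) (hz0 : DL P' Q' R' (mo 0 1 0) ≠ 0)
    (ht0 : DL P' Q' R' (mo 0 0 1) ≠ 0) {a : Al l} {F : LL} {h : Wt} (hF : Tp (wl l) (io l a) h F)
    {p : ℕ} (hp : Dg (DL P' Q' R') F p) :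
    ∃ j : ℕ, p • g + h = j • (toLex (2, 2 * (l : ℤ)) : Wt) := by
  set δ := DL P' Q' R' with hδ
  have h1 : Tp (wl l) (io l ((⇑D)^[p] a)) (p • g + h) ((⇑δ)^[p] F) := by
    rw [← DL_iter]
    exact Tp_iter hP hQ hR hF p
  have hker : δ ((⇑δ)^[p] F) = 0 := by
    have h0 := hp.2
    rw [Function.iterate_succ_apply'] at h0
    exact h0
  have hne : (⇑D)^[p] a ≠ 0 := by
    intro h0
    rw [h0, map_zero] at h1
    exact hp.1 h1.eq_zero
  obtain ⟨g', k, j, S, h', h2, h3, h4, -⟩ := TF l hne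
  obtain ⟨h5, h6⟩ := h1.unique h2 hp.1 (TF_ne l h3 k j)
  have hnil : ∀ a b : ℕ, mo 0 a b ∈ nil δ := by
    intro a b
    rw [mo_nat]
    exact mul_mem (pow_mem hz _) (pow_mem ht _)
  have hSn : S ∈ nil δ := by
    have h7 : Sh l h' ≤ Subalgebra.toSubmodule (nil δ) := by
      refine Su_le ?_
      rintro k a b ⟨h7, h8, h9, -⟩
      simp only at h7 h8 h9
      obtain ⟨a', rfl⟩ := Int.eq_ofNat_of_zero_le h8
      obtain ⟨b', rfl⟩ := Int.eq_ofNat_of_zero_le h9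
      subst h7
      exact hnil a' b'
    exact h7 h4
  rw [h6] at hker
  have hX0 : mo 1 0 0 ^ k ≠ 0 := pow_ne_zero k (mo_ne _ _ _)
  have hY0 : Yh l ^ j ≠ 0 := pow_ne_zero j (Yh_ne l)
  have h8 := ker_of_mul (mul_mem (pow_mem hx k) (pow_mem hy j)) hSn (TF_ne l h3 k j) hker
  have h9 := ker_of_mul (pow_mem hx k) (pow_mem hy j) (mul_ne_zero hX0 hY0) h8.1
  have hk : k = 0 := by
    by_contra hk
    exact hx0 (ker_of_pow hk hx (mo_ne _ _ _) h9.1)
  obtain ⟨c, hc⟩ := Sh_ker hl hl2 hz ht hz0 ht0 h4 h3 h8.2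
  refine ⟨j, ?_⟩
  rw [h5]
  refine hom_unique h2.1 ?_ (TF_ne l h3 k j)
  rw [hk, pow_zero, one_mul, hc, mul_comm (Yh l ^ j), ← Algebra.smul_def]
  exact Submodule.smul_mem _ _ (Hm_pow (Yh_hom l) j)

/-- **The kernel of a nonzero locally nilpotent derivation is contained in `ℂ[x, z, t]`.** -/
theorem ker_le (hl : Odd l) (hl2 : 2 ≤ l) (D : Derivation ℂ (Al l) (Al l)) (hD : LN D)
    (hD0 : D ≠ 0) {f : Al l} (hf : D f = 0) : f ∈ Bx l := by
  by_contra hfB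
  have hf0 : f ≠ 0 := by
    rintro rfl
    exact hfB (zero_mem _)
  obtain ⟨g, P', Q', R', hP, hQ, hR, hne⟩ := exists_top (wl l) (PQR_ne D hD0)
  set δ := DL P' Q' R' with hδ
  -- top forms are killed by powers of `δ`
  have hnil : ∀ (a : Al l) (h : Wt) (F : LL), Tp (wl l) (io l a) h F → F ∈ nil δ := by
    intro a h F hF
    obtain ⟨n, hn⟩ := hD a
    refine ⟨n, ?_⟩
    have h1 := Tp_iter hP hQ hR hF n
    rw [DL_iter, hn, map_zero] at h1
    exact h1.eq_zero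
  have hx : mo 1 0 0 ∈ nil δ := hnil (ax l) _ _ (by rw [io_x]; exact Tp_mo l 1 0 0)
  have hz : mo 0 1 0 ∈ nil δ := hnil (az l) _ _ (by rw [io_z]; exact Tp_mo l 0 1 0)
  have ht : mo 0 0 1 ∈ nil δ := hnil (at' l) _ _ (by rw [io_t]; exact Tp_mo l 0 0 1)
  have hy : Yh l ∈ nil δ := hnil (ay l) _ _ (Tp_y l)
  have hX : mo 1 0 0 ≠ 0 := mo_ne _ _ _
  have hZ : mo 0 1 0 ≠ 0 := mo_ne _ _ _
  have hT : mo 0 0 1 ≠ 0 := mo_ne _ _ _
  have hY : Yh l ≠ 0 := Yh_ne l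
  -- `Yh` is in the kernel
  have hyk : δ (Yh l) = 0 := by
    obtain ⟨gf, k, j, S, h, h1, h2, h3, h4⟩ := TF l hf0
    have h5 := Tp.dl hP hQ hR h1
    rw [DL_io, hf, map_zero] at h5
    have h6 := h5.eq_zero
    have hSn : S ∈ nil δ := by
      have h7 : Sh l h ≤ Subalgebra.toSubmodule (nil δ) := by
        refine Su_le ?_
        rintro k a b ⟨h7, h8, h9, -⟩
        simp only at h7 h8 h9
        obtain ⟨a', rfl⟩ := Int.eq_ofNat_of_zero_le h8
        obtain ⟨b', rfl⟩ := Int.eq_ofNat_of_zero_le h9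
        subst h7
        have h10 : mo 0 a' b' ∈ nil δ := by
          rw [mo_nat]
          exact mul_mem (pow_mem hz _) (pow_mem ht _)
        exact h10
      exact h7 h3
    have h8 := ker_of_mul (mul_mem (pow_mem hx k) (pow_mem hy j)) hSn (TF_ne l h2 k j) h6
    have h9 := ker_of_mul (pow_mem hx k) (pow_mem hy j)
      (mul_ne_zero (pow_ne_zero k hX) (pow_ne_zero j hY)) h8.1
    have hj : j ≠ 0 := by
      have := h4 hfB
      omega
    exact ker_of_pow hj hy hY h9.2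
  -- the values of `δ`
  have hvx : δ (mo 1 0 0) = P' * mo 1 0 0 := by
    rw [hδ, DL_mo]
    simp
  have hvz : δ (mo 0 1 0) = Q' * mo 0 1 0 := by
    rw [hδ, DL_mo]
    simp
  have hvt : δ (mo 0 0 1) = R' * mo 0 0 1 := by
    rw [hδ, DL_mo]
    simp
  have hall : ¬ (δ (mo 1 0 0) = 0 ∧ δ (mo 0 1 0) = 0 ∧ δ (mo 0 0 1) = 0) := by
    rintro ⟨h1, h2, h3⟩
    rw [hvx] at h1
    rw [hvz] at h2
    rw [hvt] at h3
    exact hne ⟨(mul_eq_zero.1 h1).resolve_right hX, (mul_eq_zero.1 h2).resolve_right hZ,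
      (mul_eq_zero.1 h3).resolve_right hT⟩
  have hrel : Yh l * mo 1 0 0 ^ 2 + mo 0 1 0 ^ 2 + mo 0 0 1 ^ l = 0 := by
    rw [mul_comm, yrel]
    ring
  have d1 : δ (1 : LL) = 0 := δ.map_one_eq_zero
  have hx0 : δ (mo 1 0 0) ≠ 0 := by
    intro h0
    have h1 : δ (-(Yh l * mo 1 0 0 ^ 2)) = 0 := by
      rw [map_neg, Derivation.leibniz, Derivation.leibniz_pow, h0, hyk]
      simp
    have h2 := lemA (δ := δ) (u := mo 0 1 0) (v := mo 0 0 1) (α := 1) (β := 1) (a := 2) (b := l)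
      le_rfl hl2 one_ne_zero one_ne_zero d1 d1
      (neg_ne_zero.2 (mul_ne_zero hY (pow_ne_zero 2 hX))) h1 hz ht (by linear_combination hrel)
    exact hall ⟨h0, h2.1, h2.2⟩
  have hz0 : δ (mo 0 1 0) ≠ 0 := by
    intro h0
    have h1 : δ (-(mo 0 1 0 ^ 2)) = 0 := by
      rw [map_neg, Derivation.leibniz_pow, h0]
      simp
    have h2 := lemA (δ := δ) (u := mo 1 0 0) (v := mo 0 0 1) (α := Yh l) (β := 1) (a := 2) (b := l)
      le_rfl hl2 hY one_ne_zero hyk d1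
      (neg_ne_zero.2 (pow_ne_zero 2 hZ)) h1 hx ht (by linear_combination hrel)
    exact hall ⟨h2.1, h0, h2.2⟩
  have ht0 : δ (mo 0 0 1) ≠ 0 := by
    intro h0
    have h1 : δ (-(mo 0 0 1 ^ l)) = 0 := by
      rw [map_neg, Derivation.leibniz_pow, h0]
      simp
    have h2 := lemA (δ := δ) (u := mo 1 0 0) (v := mo 0 1 0) (α := Yh l) (β := 1) (a := 2) (b := 2)
      le_rfl le_rfl hY one_ne_zero hyk d1
      (neg_ne_zero.2 (pow_ne_zero l hT)) h1 hx hz (by linear_combination hrel)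
    exact hall ⟨h2.1, h2.2, h0⟩
  -- the weights
  obtain ⟨p, hp⟩ := exists_Dg hx hX
  obtain ⟨q, hq⟩ := exists_Dg hz hZ
  obtain ⟨j, hj⟩ := top_const hl hl2 hP hQ hR hz ht hx hy hx0 hz0 ht0
    (a := ax l) (F := mo 1 0 0) (by rw [io_x]; exact Tp_mo l 1 0 0) hp
  obtain ⟨i, hi⟩ := top_const hl hl2 hP hQ hR hz ht hx hy hx0 hz0 ht0
    (a := az l) (F := mo 0 1 0) (by rw [io_z]; exact Tp_mo l 0 1 0) hq
  obtain ⟨g1, g2⟩ := g
  have e1 : (p : ℤ) * g1 + (-1) = j * 2 ∧ (p : ℤ) * g2 + ((l : ℤ) * 0 + 2 * 0) = j * (2 * l) := by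
    have h1 := hj
    change p • (toLex (g1, g2) : Wt) + _ = _ at h1
    rw [nsmul_wt, nsmul_wt, add_wt] at h1
    exact Prod.ext_iff.1 h1
  have e2 : (q : ℤ) * g1 + (-0) = i * 2 ∧ (q : ℤ) * g2 + ((l : ℤ) * 1 + 2 * 0) = i * (2 * l) := by
    have h1 := hi
    change q • (toLex (g1, g2) : Wt) + _ = _ at h1
    rw [nsmul_wt, nsmul_wt, add_wt] at h1
    exact Prod.ext_iff.1 h1
  obtain ⟨e11, e12⟩ := e1
  obtain ⟨e21, e22⟩ := e2
  have f1 : (p : ℤ) * (l * g1 - g2) = l := by linear_combination (l : ℤ) * e11 - e12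
  have f2 : (q : ℤ) * (l * g1 - g2) = l := by linear_combination (l : ℤ) * e21 - e22
  have hl0 : (l : ℤ) ≠ 0 := by
    have : l ≠ 0 := by omega
    exact_mod_cast this
  have f3 : (l : ℤ) * g1 - g2 ≠ 0 := by
    intro h0
    rw [h0, mul_zero] at f1
    exact hl0 f1.symm
  have f4 : (p : ℤ) = q := mul_right_cancel₀ f3 (f1.trans f2.symm)
  rw [f4] at e11
  omega

end

end Pool.Agent.Helper72.KRF
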