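import Pool.Agent.Helper72.KRF.Dg

/-!
# Laurent polynomials in three variables, top forms and derivations
-/

set_option autoImplicit false

namespace Pool.Agent.Helper72.KRF

open Finset

noncomputable section

/-- exponents -/
abbrev Ex : Type := ℤ × ℤ × ℤ

/-- Laurent polynomials in three variables -/
abbrev LL : Type := AddMonoidAlgebra ℂ Ex

/-- monomials -/
def mo (k a b : ℤ) : LL := AddMonoidAlgebra.single (k, a, b) 1

theorem mo_mul (k a b k' a' b' : ℤ) : mo k a b * mo k' a' b' = mo (k + k') (a + a') (b + b') := by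
  rw [mo, mo, AddMonoidAlgebra.single_mul_single, mul_one]
  rfl

theorem mo_zero : mo 0 0 0 = 1 := rfl

theorem mo_pow (k a b : ℤ) (n : ℕ) : mo k a b ^ n = mo (n * k) (n * a) (n * b) := by
  induction n with
  | zero => simp [mo_zero]
  | succ n ih =>
    rw [pow_succ, ih, mo_mul]
    congr 1 <;> push_cast <;> ring

theorem coeff_mo (k a b : ℤ) (m : Ex) : (mo k a b).coeff m = if (k, a, b) = m then 1 else 0 := by
  rw [mo, AddMonoidAlgebra.coeff_single, Finsupp.single_apply]

theorem mo_ne (k a b : ℤ) : mo k a b ≠ 0 := by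
  intro h
  have h1 := coeff_mo k a b (k, a, b)
  rw [h, if_pos rfl] at h1
  exact zero_ne_one h1

/-- Laurent polynomials with exponents in `S` -/
def Su (S : Set Ex) : Submodule ℂ LL where
  carrier := {f | ∀ m, f.coeff m ≠ 0 → m ∈ S}
  add_mem' := by
    intro f g hf hg m hm
    rw [AddMonoidAlgebra.coeff_add, Finsupp.add_apply] at hm
    by_cases h : f.coeff m = 0
    · exact hg m (by rw [h, zero_add] at hm; exact hm)
    · exact hf m h
  zero_mem' := fun m hm => absurd rfl hm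
  smul_mem' := by
    intro c f hf m hm
    refine hf m fun h => hm ?_
    rw [AddMonoidAlgebra.coeff_smul_apply, h, smul_zero]

theorem mem_Su {S : Set Ex} {f : LL} : f ∈ Su S ↔ ∀ m, f.coeff m ≠ 0 → m ∈ S := Iff.rfl

theorem Su_mono {S T : Set Ex} (h : S ⊆ T) : Su S ≤ Su T := fun _ hf m hm => h (hf m hm)

theorem mo_mem {S : Set Ex} {k a b : ℤ} (h : (k, a, b) ∈ S) : mo k a b ∈ Su S := by
  intro m hm
  rw [coeff_mo] at hm
  by_cases h1 : (k, a, b) = m
  · exact h1 ▸ h
  · exact absurd (if_neg h1) hm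

theorem eq_sum_mo (f : LL) : f = ∑ m ∈ f.coeff.support, (f.coeff m) • mo m.1 m.2.1 m.2.2 := by
  apply AddMonoidAlgebra.ext
  ext m
  rw [AddMonoidAlgebra.coeff_sum, Finsupp.finsetSum_apply]
  simp only [AddMonoidAlgebra.coeff_smul_apply, coeff_mo, Prod.mk.eta, smul_eq_mul, mul_ite,
    mul_one, mul_zero, Finset.sum_ite_eq', Finsupp.mem_support_iff]
  by_cases h : f.coeff m = 0
  · simp [h]
  · simp [h]

theorem Su_le {S : Set Ex} {p : Submodule ℂ LL} (h : ∀ k a b, (k, a, b) ∈ S → mo k a b ∈ p) :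
    Su S ≤ p := by
  intro f hf
  rw [eq_sum_mo f]
  exact sum_mem fun m hm => p.smul_mem _ (h _ _ _ (hf m (Finsupp.mem_support_iff.1 hm)))

theorem Su_mul {S T U : Set Ex} (h : ∀ a ∈ S, ∀ b ∈ T, a + b ∈ U) {f g : LL} (hf : f ∈ Su S)
    (hg : g ∈ Su T) : f * g ∈ Su U := by
  classical
  intro m hm
  have h1 := AddMonoidAlgebra.support_coeff_mul_subset f g (Finsupp.mem_support_iff.2 hm)
  obtain ⟨a, ha, b, hb, rfl⟩ := Finset.mem_add.1 h1
  exact h a (hf a (Finsupp.mem_support_iff.1 ha)) b (hg b (Finsupp.mem_support_iff.1 hb))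

/-! ### top forms -/

/-- weights -/
abbrev Wt : Type := ℤ ×ₗ ℤ

variable (w : Ex →+ Wt)

/-- homogeneous elements -/
def Hm (g : Wt) : Submodule ℂ LL := Su {m | w m = g}

/-- elements of lower weight -/
def Lo (g : Wt) : Submodule ℂ LL := Su {m | w m < g}

/-- `F` is the part of weight `g` of `f` and all other terms of `f` have lower weight -/
def Tp (f : LL) (g : Wt) (F : LL) : Prop := F ∈ Hm w g ∧ f - F ∈ Lo w g

variable {w}

theorem Hm_mul {g g' : Wt} {f f' : LL} (h : f ∈ Hm w g) (h' : f' ∈ Hm w g') :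
    f * f' ∈ Hm w (g + g') :=
  Su_mul (fun a ha b hb => by
    have h1 : w a = g := ha
    have h2 : w b = g' := hb
    change w (a + b) = g + g'
    rw [map_add, h1, h2]) h h'

theorem Lo_mul {g g' : Wt} {f f' : LL} (h : f ∈ Lo w g) (h' : f' ∈ Hm w g') :
    f * f' ∈ Lo w (g + g') :=
  Su_mul (fun a ha b hb => by
    have h1 : w a < g := ha
    have h2 : w b = g' := hb
    change w (a + b) < g + g'
    rw [map_add, h2]
    exact add_lt_add_left h1 _) h h'

theorem Lo_Lo {g g' : Wt} {f f' : LL} (h : f ∈ Lo w g) (h' : f' ∈ Lo w g') :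
    f * f' ∈ Lo w (g + g') :=
  Su_mul (fun a ha b hb => by
    have h1 : w a < g := ha
    have h2 : w b < g' := hb
    change w (a + b) < g + g'
    rw [map_add]
    exact add_lt_add h1 h2) h h'

theorem Tp.mul {f f' F F' : LL} {g g' : Wt} (h : Tp w f g F) (h' : Tp w f' g' F') :
    Tp w (f * f') (g + g') (F * F') := by
  refine ⟨Hm_mul h.1 h'.1, ?_⟩
  have h1 : f * f' - F * F' = (f - F) * (f' - F') + (f - F) * F' + (f' - F') * F := by ring
  rw [h1]
  refine add_mem (add_mem (Lo_Lo h.2 h'.2) (Lo_mul h.2 h'.1)) ?_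
  have h2 := Lo_mul h'.2 h.1
  rwa [add_comm g' g] at h2

theorem Tp.add_low {f F h : LL} {g : Wt} (hf : Tp w f g F) (hh : h ∈ Lo w g) :
    Tp w (f + h) g F := by
  refine ⟨hf.1, ?_⟩
  have h1 : f + h - F = (f - F) + h := by ring
  rw [h1]
  exact add_mem hf.2 hh

theorem Tp.add {f f' F F' : LL} {g : Wt} (h : Tp w f g F) (h' : Tp w f' g F') :
    Tp w (f + f') g (F + F') := by
  refine ⟨add_mem h.1 h'.1, ?_⟩
  have h1 : f + f' - (F + F') = (f - F) + (f' - F') := by ring
  rw [h1]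
  exact add_mem h.2 h'.2

theorem Tp.smul {f F : LL} {g : Wt} (h : Tp w f g F) (c : ℂ) : Tp w (c • f) g (c • F) := by
  refine ⟨Submodule.smul_mem _ _ h.1, ?_⟩
  rw [← smul_sub]
  exact Submodule.smul_mem _ _ h.2

theorem Tp_zero (g : Wt) : Tp w 0 g 0 := ⟨zero_mem _, by rw [sub_zero]; exact zero_mem _⟩

theorem Tp.of_low {f : LL} {g : Wt} (h : f ∈ Lo w g) : Tp w f g 0 :=
  ⟨zero_mem _, by rw [sub_zero]; exact h⟩

theorem Tp.of_hom {f : LL} {g : Wt} (h : f ∈ Hm w g) : Tp w f g f :=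
  ⟨h, by rw [sub_self]; exact zero_mem _⟩

theorem Tp.coeff {f F : LL} {g : Wt} (h : Tp w f g F) {m : Ex} (hm : w m = g) :
    f.coeff m = F.coeff m := by
  have h1 : (f - F).coeff m = 0 := by
    by_contra h2
    have h3 : w m < g := h.2 m h2
    exact absurd hm h3.ne
  have h4 : (f - F).coeff m = f.coeff m - F.coeff m := rfl
  rw [h4] at h1
  exact sub_eq_zero.1 h1

theorem Tp.coeff_zero {f F : LL} {g : Wt} (h : Tp w f g F) {m : Ex} (hm : g < w m) :
    f.coeff m = 0 := by
  have h1 : (f - F).coeff m = 0 := by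
    by_contra h2
    have h3 : w m < g := h.2 m h2
    exact absurd (h3.trans hm) (lt_irrefl _)
  have h2 : F.coeff m = 0 := by
    by_contra h2
    have h3 : w m = g := h.1 m h2
    exact absurd h3 hm.ne'
  have h4 : (f - F).coeff m = f.coeff m - F.coeff m := rfl
  rw [h4, h2, sub_zero] at h1
  exact h1

theorem exists_coeff {f : LL} (h : f ≠ 0) : ∃ m, f.coeff m ≠ 0 := by
  by_contra h1
  apply h
  apply AddMonoidAlgebra.ext
  ext m
  by_contra h2
  exact h1 ⟨m, h2⟩

theorem Tp.unique {f F F' : LL} {g g' : Wt} (h : Tp w f g F) (h' : Tp w f g' F') (hF : F ≠ 0)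
    (hF' : F' ≠ 0) : g = g' ∧ F = F' := by
  have key : ∀ {g g' : Wt} {F F' : LL}, Tp w f g F → Tp w f g' F' → F' ≠ 0 → ¬ g < g' := by
    intro g g' F F' h h' hF' hlt
    obtain ⟨m, hm⟩ := exists_coeff hF'
    have h1 : w m = g' := h'.1 m hm
    apply hm
    rw [← h'.coeff h1]
    exact h.coeff_zero (by rw [h1]; exact hlt)
  have h1 : g = g' := le_antisymm (not_lt.1 (key h' h hF)) (not_lt.1 (key h h' hF'))
  subst h1
  refine ⟨rfl, ?_⟩
  apply AddMonoidAlgebra.ext
  ext m
  by_cases hm : w m = g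
  · rw [← h.coeff hm, ← h'.coeff hm]
  · have h2 : F.coeff m = 0 := by
      by_contra h2
      exact hm (h.1 m h2)
    have h3 : F'.coeff m = 0 := by
      by_contra h2
      exact hm (h'.1 m h2)
    rw [h2, h3]

theorem Tp.eq_zero {F : LL} {g : Wt} (h : Tp w 0 g F) : F = 0 := by
  by_contra h0
  obtain ⟨m, hm⟩ := exists_coeff h0
  have h1 : w m = g := h.1 m hm
  exact hm (h.coeff h1).symm

open Classical in
/-- the part of weight `g` -/
def hp (w : Ex →+ Wt) (g : Wt) (f : LL) : LL :=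
  AddMonoidAlgebra.ofCoeff (f.coeff.filter fun m => w m = g)

theorem Tp_hp {f : LL} {g : Wt} (h : ∀ m, f.coeff m ≠ 0 → w m ≤ g) : Tp w f g (hp w g f) := by
  classical
  have h1 : ∀ m, (hp w g f).coeff m = if w m = g then f.coeff m else 0 := by
    intro m
    change (f.coeff.filter fun m => w m = g) m = _
    rw [Finsupp.filter_apply]
  constructor
  · intro m hm
    rw [h1] at hm
    by_contra h2
    exact hm (if_neg h2)
  · intro m hm
    have h4 : (f - hp w g f).coeff m = f.coeff m - (hp w g f).coeff m := rfl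
    rw [h4, h1] at hm
    by_cases h2 : w m = g
    · rw [if_pos h2, sub_self] at hm
      exact absurd rfl hm
    · rw [if_neg h2, sub_zero] at hm
      exact lt_of_le_of_ne (h m hm) h2

/-- a common top weight of three elements which are not all zero -/
theorem exists_top (w : Ex →+ Wt) {P Q R : LL} (h : ¬ (P = 0 ∧ Q = 0 ∧ R = 0)) :
    ∃ (g : Wt) (P' Q' R' : LL), Tp w P g P' ∧ Tp w Q g Q' ∧ Tp w R g R' ∧
      ¬ (P' = 0 ∧ Q' = 0 ∧ R' = 0) := by
  classical
  set s : Finset Ex := P.coeff.support ∪ (Q.coeff.support ∪ R.coeff.support) with hs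
  have hne : s.Nonempty := by
    by_contra h0
    rw [Finset.not_nonempty_iff_eq_empty] at h0
    apply h
    have key : ∀ f : LL, f.coeff.support ⊆ s → f = 0 := by
      intro f hf
      by_contra h1
      obtain ⟨m, hm⟩ := exists_coeff h1
      have h2 := hf (Finsupp.mem_support_iff.2 hm)
      rw [h0] at h2
      exact absurd h2 (Finset.notMem_empty _)
    refine ⟨key P ?_, key Q ?_, key R ?_⟩
    · rw [hs]; exact Finset.subset_union_left
    · rw [hs]; exact Finset.subset_union_left.trans Finset.subset_union_right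
    · rw [hs]; exact Finset.subset_union_right.trans Finset.subset_union_right
  obtain ⟨m0, hm0, hmax⟩ := Finset.exists_max_image s (fun m => w m) hne
  refine ⟨w m0, hp w (w m0) P, hp w (w m0) Q, hp w (w m0) R, Tp_hp ?_, Tp_hp ?_, Tp_hp ?_, ?_⟩
  · intro m hm
    refine hmax m ?_
    rw [hs]
    exact Finset.mem_union_left _ (Finsupp.mem_support_iff.2 hm)
  · intro m hm
    refine hmax m ?_
    rw [hs]
    exact Finset.mem_union_right _ (Finset.mem_union_left _ (Finsupp.mem_support_iff.2 hm))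
  · intro m hm
    refine hmax m ?_
    rw [hs]
    exact Finset.mem_union_right _ (Finset.mem_union_right _ (Finsupp.mem_support_iff.2 hm))
  · rintro ⟨h1, h2, h3⟩
    have key : ∀ f : LL, f.coeff m0 ≠ 0 → hp w (w m0) f ≠ 0 := by
      intro f hf h0
      apply hf
      have h4 : (hp w (w m0) f).coeff m0 = f.coeff m0 := by
        change (f.coeff.filter fun m => w m = w m0) m0 = _
        rw [Finsupp.filter_apply, if_pos rfl]
      rw [← h4, h0]
      rfl
    rw [hs, Finset.mem_union, Finset.mem_union] at hm0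
    rcases hm0 with h | h | h
    · exact key P (Finsupp.mem_support_iff.1 h) h1
    · exact key Q (Finsupp.mem_support_iff.1 h) h2
    · exact key R (Finsupp.mem_support_iff.1 h) h3

/-! ### Euler derivations -/

/-- `EuL φ` multiplies the coefficient of `m` by `φ m` -/
def EuL (φ : Ex →+ ℂ) : LL →ₗ[ℂ] LL where
  toFun f := AddMonoidAlgebra.ofCoeff (Finsupp.onFinset f.coeff.support
    (fun m => φ m * f.coeff m) (fun m hm => Finsupp.mem_support_iff.2 (right_ne_zero_of_mul hm)))
  map_add' f g := by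
    apply AddMonoidAlgebra.ext
    ext m
    change φ m * (f + g).coeff m = φ m * f.coeff m + φ m * g.coeff m
    rw [AddMonoidAlgebra.coeff_add, Finsupp.add_apply, mul_add]
  map_smul' c f := by
    apply AddMonoidAlgebra.ext
    ext m
    change φ m * (c • f).coeff m = c * (φ m * f.coeff m)
    rw [AddMonoidAlgebra.coeff_smul_apply, smul_eq_mul]
    ring

theorem EuL_coeff (φ : Ex →+ ℂ) (f : LL) (m : Ex) : (EuL φ f).coeff m = φ m * f.coeff m := rfl

theorem EuL_single (φ : Ex →+ ℂ) (m : Ex) (c : ℂ) :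
    EuL φ (AddMonoidAlgebra.single m c) = AddMonoidAlgebra.single m (φ m * c) := by
  apply AddMonoidAlgebra.ext
  ext n
  rw [EuL_coeff, AddMonoidAlgebra.coeff_single, AddMonoidAlgebra.coeff_single,
    Finsupp.single_apply, Finsupp.single_apply]
  split_ifs with h
  · rw [h]
  · rw [mul_zero]

/-- Euler derivation -/
def Eu (φ : Ex →+ ℂ) : Derivation ℂ LL LL := Derivation.mk' (EuL φ) (by
  intro f g
  induction f using AddMonoidAlgebra.induction_linear with
  | zero => simp
  | add f f' hf hf' =>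
    rw [add_mul, map_add, hf, hf', map_add, add_smul, smul_add]
    abel
  | single m c =>
    induction g using AddMonoidAlgebra.induction_linear with
    | zero => simp
    | add f f' hf hf' =>
      rw [mul_add, map_add, hf, hf', map_add, add_smul, smul_add]
      abel
    | single n d =>
      rw [AddMonoidAlgebra.single_mul_single, EuL_single, EuL_single, EuL_single, smul_eq_mul,
        smul_eq_mul, AddMonoidAlgebra.single_mul_single, AddMonoidAlgebra.single_mul_single,
        add_comm n m, ← AddMonoidAlgebra.single_add, map_add]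
      congr 1
      ring)

theorem Eu_coeff (φ : Ex →+ ℂ) (f : LL) (m : Ex) : (Eu φ f).coeff m = φ m * f.coeff m := rfl

theorem Eu_mem (φ : Ex →+ ℂ) {S : Set Ex} {f : LL} (h : f ∈ Su S) : Eu φ f ∈ Su S := by
  intro m hm
  rw [Eu_coeff] at hm
  exact h m (right_ne_zero_of_mul hm)

theorem Eu_mo (φ : Ex →+ ℂ) (k a b : ℤ) : Eu φ (mo k a b) = φ (k, a, b) • mo k a b := by
  apply AddMonoidAlgebra.ext
  ext m
  rw [Eu_coeff, AddMonoidAlgebra.coeff_smul_apply, coeff_mo, smul_eq_mul]
  split_ifs with h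
  · rw [h]
  · rw [mul_zero, mul_zero]

theorem Tp.eu {f F : LL} {g : Wt} (h : Tp w f g F) (φ : Ex →+ ℂ) : Tp w (Eu φ f) g (Eu φ F) := by
  refine ⟨Eu_mem φ h.1, ?_⟩
  rw [← map_sub]
  exact Eu_mem φ h.2

/-- the three Euler derivations -/
def e1 : Ex →+ ℂ := (Int.castAddHom ℂ).comp (AddMonoidHom.fst ℤ (ℤ × ℤ))
def e2 : Ex →+ ℂ := (Int.castAddHom ℂ).comp ((AddMonoidHom.fst ℤ ℤ).comp (AddMonoidHom.snd ℤ (ℤ × ℤ)))
def e3 : Ex →+ ℂ := (Int.castAddHom ℂ).comp ((AddMonoidHom.snd ℤ ℤ).comp (AddMonoidHom.snd ℤ (ℤ × ℤ)))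

/-- the derivation with `x⁻¹ δ x = P`, `z⁻¹ δ z = Q`, `t⁻¹ δ t = R` -/
def DL (P Q R : LL) : Derivation ℂ LL LL := P • Eu e1 + Q • Eu e2 + R • Eu e3

theorem DL_apply (P Q R f : LL) : DL P Q R f = P * Eu e1 f + Q * Eu e2 f + R * Eu e3 f := rfl

theorem DL_mo (P Q R : LL) (k a b : ℤ) : DL P Q R (mo k a b) =
    ((k : ℂ) • P + (a : ℂ) • Q + (b : ℂ) • R) * mo k a b := by
  rw [DL_apply, Eu_mo, Eu_mo, Eu_mo]
  have h1 : e1 (k, a, b) = (k : ℂ) := rfl
  have h2 : e2 (k, a, b) = (a : ℂ) := rfl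
  have h3 : e3 (k, a, b) = (b : ℂ) := rfl
  rw [h1, h2, h3]
  simp only [mul_smul_comm, add_mul, smul_mul_assoc]

theorem Tp.dl {P Q R P' Q' R' f F : LL} {g h : Wt} (hP : Tp w P g P') (hQ : Tp w Q g Q')
    (hR : Tp w R g R') (hf : Tp w f h F) : Tp w (DL P Q R f) (g + h) (DL P' Q' R' F) := by
  rw [DL_apply, DL_apply]
  exact ((hP.mul (hf.eu e1)).add (hQ.mul (hf.eu e2))).add (hR.mul (hf.eu e3))

end

end Pool.Agent.Helper72.KRF
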