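import Pool.Agent.Helper72.KRF.Lau
import Pool.Agent.Helper72.KRF.Iso

/-!
# Top forms of the regular functions on the Koras-Russell threefolds `x + x² y + z² + t^l = 0`
-/

set_option autoImplicit false

namespace Pool.Agent.Helper72.KRF

open Finset

noncomputable section

/-- the coordinate ring of `x + x² y + z² + t^l = 0` -/
abbrev Al (l : ℕ) : Type := KR (MvPolynomial.X 0 ^ l : MvPolynomial (Fin 1) ℂ)

variable (l : ℕ)

def ax : Al l := kg _ (Sum.inl 0)
def ay : Al l := kg _ (Sum.inl 1)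
def az : Al l := kg _ (Sum.inl 2)
def at' : Al l := kg _ (Sum.inr 0)

theorem arel : ax l + ax l ^ 2 * ay l + az l ^ 2 + at' l ^ l = 0 := by
  have h := krel (MvPolynomial.X 0 ^ l : MvPolynomial (Fin 1) ℂ)
  have h1 : MvPolynomial.aeval (fun j => kg (MvPolynomial.X 0 ^ l : MvPolynomial (Fin 1) ℂ) (Sum.inr j))
      (MvPolynomial.X 0 ^ l : MvPolynomial (Fin 1) ℂ) = at' l ^ l := by
    generalize hv : (fun j => kg (MvPolynomial.X 0 ^ l : MvPolynomial (Fin 1) ℂ) (Sum.inr j)) = v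
    have h2 : at' l = v 0 := by rw [← hv]; rfl
    rw [h2, map_pow, MvPolynomial.aeval_X]
  rw [← h1]
  exact h

/-- the top form of `y` -/
def Yh : LL := -(mo (-2) 2 0 + mo (-2) 0 l)

/-- the values of the generators -/
def vL : Fin 3 ⊕ Fin 1 → LL := Sum.elim ![mo 1 0 0, Yh l - mo (-1) 0 0, mo 0 1 0] (fun _ => mo 0 0 1)

theorem yrel : mo 1 0 0 ^ 2 * Yh l = -(mo 0 1 0 ^ 2 + mo 0 0 1 ^ l) := by
  rw [Yh, mo_pow, mo_pow, mo_pow, mul_neg, mul_add, mo_mul, mo_mul]
  norm_num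

theorem aeval_vL : MvPolynomial.aeval (vL l) (MvPolynomial.X (Sum.inl 0) +
    MvPolynomial.X (Sum.inl 0) ^ 2 * MvPolynomial.X (Sum.inl 1) +
      MvPolynomial.X (Sum.inl 2) ^ 2 + MvPolynomial.rename Sum.inr
        (MvPolynomial.X 0 ^ l : MvPolynomial (Fin 1) ℂ) : MvPolynomial (Fin 3 ⊕ Fin 1) ℂ) = 0 := by
  rw [map_add, map_add, map_add, map_mul, map_pow, map_pow, MvPolynomial.aeval_X,
    MvPolynomial.aeval_X, MvPolynomial.aeval_X, MvPolynomial.aeval_rename, map_pow,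
    MvPolynomial.aeval_X]
  have h0 : vL l (Sum.inl 0) = mo 1 0 0 := rfl
  have h1 : vL l (Sum.inl 1) = Yh l - mo (-1) 0 0 := rfl
  have h2 : vL l (Sum.inl 2) = mo 0 1 0 := rfl
  have h3 : (vL l ∘ Sum.inr) 0 = mo 0 0 1 := rfl
  have h4 : mo 1 0 0 ^ 2 * mo (-1) 0 0 = mo 1 0 0 := by
    rw [mo_pow, mo_mul]
    norm_num
  rw [h0, h1, h2, h3, mul_sub, yrel, h4]
  ring

/-- the embedding in the Laurent polynomials -/
def io : Al l →ₐ[ℂ] LL :=
  Ideal.Quotient.liftₐ _ (MvPolynomial.aeval (vL l)) (by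
    intro a ha
    obtain ⟨q, rfl⟩ := Ideal.mem_span_singleton'.1 ha
    rw [map_mul, aeval_vL, mul_zero])

theorem io_mk (p : MvPolynomial (Fin 3 ⊕ Fin 1) ℂ) :
    io l (Ideal.Quotient.mk _ p) = MvPolynomial.aeval (vL l) p := rfl

theorem io_x : io l (ax l) = mo 1 0 0 := by
  rw [ax, kg, io_mk, MvPolynomial.aeval_X]
  rfl

theorem io_y : io l (ay l) = Yh l - mo (-1) 0 0 := by
  rw [ay, kg, io_mk, MvPolynomial.aeval_X]
  rfl

theorem io_z : io l (az l) = mo 0 1 0 := by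
  rw [az, kg, io_mk, MvPolynomial.aeval_X]
  rfl

theorem io_t : io l (at' l) = mo 0 0 1 := by
  rw [at', kg, io_mk, MvPolynomial.aeval_X]
  rfl

/-! ### monomials -/

/-- monomials of the coordinate ring -/
def bm (m : ℕ × ℕ × ℕ × ℕ) : Al l := ax l ^ m.1 * ay l ^ m.2.1 * az l ^ m.2.2.1 * at' l ^ m.2.2.2

/-- exponents of the basis -/
def Bs : Set (ℕ × ℕ × ℕ × ℕ) := {m | m.1 ≤ 1 ∨ m.2.1 = 0}

theorem span_all (f : Al l) : f ∈ Submodule.span ℂ (Set.range (bm l)) := by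
  obtain ⟨p, rfl⟩ := Ideal.Quotient.mk_surjective f
  have hmul : ∀ (u : Al l), (∀ m, bm l m * u ∈ Set.range (bm l)) →
      ∀ f ∈ Submodule.span ℂ (Set.range (bm l)), f * u ∈ Submodule.span ℂ (Set.range (bm l)) := by
    intro u hu f hf
    induction hf using Submodule.span_induction with
    | mem x hx =>
      obtain ⟨m, rfl⟩ := hx
      exact Submodule.subset_span (hu m)
    | zero => rw [zero_mul]; exact zero_mem _
    | add x y _ _ hx hy => rw [add_mul]; exact add_mem hx hy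
    | smul c x _ hx => rw [smul_mul_assoc]; exact Submodule.smul_mem _ _ hx
  induction p using MvPolynomial.induction_on with
  | C a =>
    have h1 : (Ideal.Quotient.mk _ (MvPolynomial.C a) : Al l) = a • bm l (0, 0, 0, 0) := by
      rw [bm]
      simp only [pow_zero, mul_one]
      exact Algebra.algebraMap_eq_smul_one (A := Al l) a
    rw [h1]
    exact Submodule.smul_mem _ _ (Submodule.subset_span ⟨_, rfl⟩)
  | add p q hp hq => rw [map_add]; exact add_mem hp hq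
  | mul_X p i hp =>
    rw [map_mul]
    refine hmul _ ?_ _ hp
    rintro ⟨k, j, a, b⟩
    rcases i with i | i
    · fin_cases i
      · refine ⟨(k + 1, j, a, b), ?_⟩
        change bm l (k + 1, j, a, b) = bm l (k, j, a, b) * ax l
        simp only [bm]
        ring
      · refine ⟨(k, j + 1, a, b), ?_⟩
        change bm l (k, j + 1, a, b) = bm l (k, j, a, b) * ay l
        simp only [bm]
        ring
      · refine ⟨(k, j, a + 1, b), ?_⟩
        change bm l (k, j, a + 1, b) = bm l (k, j, a, b) * az l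
        simp only [bm]
        ring
    · fin_cases i
      refine ⟨(k, j, a, b + 1), ?_⟩
      change bm l (k, j, a, b + 1) = bm l (k, j, a, b) * at' l
      simp only [bm]
      ring

theorem bm_mem (j : ℕ) : ∀ k a b, bm l (k, j, a, b) ∈ Submodule.span ℂ (bm l '' Bs) := by
  induction j with
  | zero =>
    intro k a b
    exact Submodule.subset_span ⟨_, Or.inr rfl, rfl⟩
  | succ j ih =>
    intro k a b
    rcases Nat.lt_or_ge k 2 with hk | hk
    · exact Submodule.subset_span ⟨_, Or.inl (by simp only; omega), rfl⟩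
    · obtain ⟨k', rfl⟩ := Nat.exists_eq_add_of_le' hk
      have h1 : bm l (k' + 2, j + 1, a, b) =
          -(bm l (k' + 1, j, a, b) + bm l (k', j, a + 2, b) + bm l (k', j, a, b + l)) := by
        simp only [bm]
        have h := arel l
        linear_combination (ax l ^ k' * ay l ^ j * az l ^ a * at' l ^ b) * h
      rw [h1]
      exact neg_mem (add_mem (add_mem (ih _ _ _) (ih _ _ _)) (ih _ _ _))

theorem span_bs (f : Al l) : f ∈ Submodule.span ℂ (bm l '' Bs) := by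
  have h := span_all l f
  have h1 : Submodule.span ℂ (Set.range (bm l)) ≤ Submodule.span ℂ (bm l '' Bs) := by
    refine Submodule.span_le.2 ?_
    rintro _ ⟨⟨k, j, a, b⟩, rfl⟩
    exact bm_mem l j k a b
  exact h1 h

/-! ### weights -/

/-- the weight of a monomial -/
def wl : Ex →+ Wt := AddMonoidHom.mk' (fun m => toLex (-m.1, (l : ℤ) * m.2.1 + 2 * m.2.2)) (by
  intro m n
  change toLex (-(m.1 + n.1), (l : ℤ) * (m.2.1 + n.2.1) + 2 * (m.2.2 + n.2.2)) =
    toLex (-m.1 + -n.1, (l : ℤ) * m.2.1 + 2 * m.2.2 + ((l : ℤ) * n.2.1 + 2 * n.2.2))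
  congr 1
  ext <;> simp only <;> ring)

theorem wl_apply (k a b : ℤ) : wl l (k, a, b) = toLex (-k, (l : ℤ) * a + 2 * b) := rfl

theorem nsmul_wt (n : ℕ) (p q : ℤ) : n • (toLex (p, q) : Wt) = toLex ((n : ℤ) * p, (n : ℤ) * q) := by
  induction n with
  | zero => simp; rfl
  | succ n ih =>
    rw [succ_nsmul, ih]
    change toLex ((n : ℤ) * p + p, (n : ℤ) * q + q) = _
    congr 1
    ext <;> push_cast <;> ring

theorem add_wt (p q p' q' : ℤ) : (toLex (p, q) + toLex (p', q') : Wt) = toLex (p + p', q + q') := rfl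

theorem Tp.pow {w : Ex →+ Wt} {f F : LL} {g : Wt} (h : Tp w f g F) (n : ℕ) :
    Tp w (f ^ n) (n • g) (F ^ n) := by
  induction n with
  | zero =>
    rw [pow_zero, pow_zero, zero_smul]
    refine Tp.of_hom ?_
    rw [← mo_zero]
    exact mo_mem (map_zero w)
  | succ n ih =>
    rw [pow_succ, pow_succ, succ_nsmul]
    exact ih.mul h

theorem Tp_mo (k a b : ℤ) : Tp (wl l) (mo k a b) (toLex (-k, (l : ℤ) * a + 2 * b)) (mo k a b) :=
  Tp.of_hom (mo_mem (wl_apply l k a b))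

theorem Yh_hom : Yh l ∈ Hm (wl l) (toLex (2, 2 * (l : ℤ))) := by
  rw [Yh]
  refine neg_mem (add_mem (mo_mem ?_) (mo_mem ?_))
  · change wl l (-2, 2, 0) = _
    rw [wl_apply]
    congr 1
    ext
    · norm_num
    · simp only; ring
  · change wl l (-2, 0, (l : ℤ)) = _
    rw [wl_apply]
    congr 1
    ext
    · norm_num
    · simp only; ring

theorem Tp_y : Tp (wl l) (io l (ay l)) (toLex (2, 2 * (l : ℤ))) (Yh l) := by
  rw [io_y, sub_eq_add_neg]
  refine (Tp.of_hom (Yh_hom l)).add_low (neg_mem (mo_mem ?_))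
  change wl l (-1, 0, 0) < _
  rw [wl_apply, Prod.Lex.toLex_lt_toLex]
  left
  norm_num

/-- the weight of a monomial of the coordinate ring -/
def Wm (m : ℕ × ℕ × ℕ × ℕ) : Wt :=
  toLex (-(m.1 : ℤ) + 2 * m.2.1, 2 * (l : ℤ) * m.2.1 + (l : ℤ) * m.2.2.1 + 2 * m.2.2.2)

theorem Tp_bm (m : ℕ × ℕ × ℕ × ℕ) :
    Tp (wl l) (io l (bm l m)) (Wm l m) (mo 1 0 0 ^ m.1 * Yh l ^ m.2.1 * mo 0 m.2.2.1 m.2.2.2) := by
  obtain ⟨k, j, a, b⟩ := m
  have h1 : io l (bm l (k, j, a, b)) = mo 1 0 0 ^ k * io l (ay l) ^ j * mo 0 a b := by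
    rw [bm]
    simp only [map_mul, map_pow, io_x, io_z, io_t]
    rw [mul_assoc (mo 1 0 0 ^ k * io l (ay l) ^ j)]
    congr 1
    rw [mo_pow, mo_pow, mo_mul]
    norm_num
  have h2 := (((Tp_mo l 1 0 0).pow k).mul ((Tp_y l).pow j)).mul (Tp_mo l 0 a b)
  rw [← h1] at h2
  have h3 : k • (toLex (-1, (l : ℤ) * 0 + 2 * 0) : Wt) + j • (toLex (2, 2 * (l : ℤ)) : Wt) +
      toLex (-0, (l : ℤ) * a + 2 * b) = Wm l (k, j, a, b) := by
    rw [nsmul_wt, nsmul_wt, add_wt, add_wt, Wm]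
    congr 1
    ext <;> simp only <;> ring
  rw [h3] at h2
  exact h2

theorem Yh_ne : Yh l ≠ 0 := by
  intro h
  have h1 : (Yh l).coeff (-2, 2, 0) = -((mo (-2) 2 0).coeff (-2, 2, 0) +
      (mo (-2) 0 l).coeff (-2, 2, 0)) := rfl
  rw [h, coeff_mo, coeff_mo, if_pos rfl, if_neg (by
    intro h2
    have h3 := congrArg (fun p : Ex => p.2.1) h2
    simp at h3)] at h1
  have h4 : (0 : LL).coeff (-2, 2, 0) = 0 := rfl
  rw [h4] at h1
  norm_num at h1

/-- the homogeneous polynomials in `z, t` of weight `h` -/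
def Sh (h : ℤ) : Submodule ℂ LL :=
  Su {m | m.1 = 0 ∧ 0 ≤ m.2.1 ∧ 0 ≤ m.2.2 ∧ (l : ℤ) * m.2.1 + 2 * m.2.2 = h}

/-- the functions of `x, z, t` -/
def Bx : Subalgebra ℂ (Al l) := Algebra.adjoin ℂ {ax l, az l, at' l}

theorem Tp_sum {w : Ex →+ Wt} {ι : Type} (s : Finset ι) (f F : ι → LL) (g : Wt)
    (h : ∀ i ∈ s, Tp w (f i) g (F i)) : Tp w (∑ i ∈ s, f i) g (∑ i ∈ s, F i) := by
  classical
  induction s using Finset.induction_on with
  | empty => simpa using Tp_zero g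
  | insert a s ha ih =>
    rw [Finset.sum_insert ha, Finset.sum_insert ha]
    exact (h a (Finset.mem_insert_self a s)).add (ih fun i hi => h i (Finset.mem_insert_of_mem hi))

/-- **Top forms.** -/
theorem TF {f : Al l} (hf : f ≠ 0) : ∃ (g : Wt) (k j : ℕ) (S : LL) (h : ℤ),
    Tp (wl l) (io l f) g (mo 1 0 0 ^ k * Yh l ^ j * S) ∧ S ≠ 0 ∧ S ∈ Sh l h ∧
      (f ∉ Bx l → 1 ≤ j) := by
  classical
  have h0 := span_bs l f
  rw [Finsupp.mem_span_image_iff_linearCombination] at h0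
  obtain ⟨c, hc1, hc2⟩ := h0
  have hcB : ∀ m ∈ c.support, m ∈ Bs := fun m hm => hc1 hm
  have hsum : f = ∑ m ∈ c.support, c m • bm l m := by
    rw [← hc2, Finsupp.linearCombination_apply]
    rfl
  have hne : c.support.Nonempty := by
    rw [Finset.nonempty_iff_ne_empty]
    intro h
    rw [h, Finset.sum_empty] at hsum
    exact hf hsum
  obtain ⟨m0, hm0, hmax⟩ := Finset.exists_max_image c.support (Wm l) hne
  have key : ∀ m ∈ c.support, Wm l m = Wm l m0 → m.1 = m0.1 ∧ m.2.1 = m0.2.1 ∧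
      (l : ℤ) * m.2.2.1 + 2 * m.2.2.2 = (l : ℤ) * m0.2.2.1 + 2 * m0.2.2.2 := by
    intro m hm h
    have h1 : (-(m.1 : ℤ) + 2 * m.2.1, 2 * (l : ℤ) * m.2.1 + (l : ℤ) * m.2.2.1 + 2 * m.2.2.2) =
        (-(m0.1 : ℤ) + 2 * m0.2.1, 2 * (l : ℤ) * m0.2.1 + (l : ℤ) * m0.2.2.1 + 2 * m0.2.2.2) := h
    obtain ⟨h2, h3⟩ := Prod.ext_iff.1 h1
    simp only at h2 h3
    have h4 : m.1 ≤ 1 ∨ m.2.1 = 0 := hcB m hm
    have h5 : m0.1 ≤ 1 ∨ m0.2.1 = 0 := hcB m0 hm0
    have h6 : m.1 = m0.1 ∧ m.2.1 = m0.2.1 := by omega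
    refine ⟨h6.1, h6.2, ?_⟩
    rw [h6.2] at h3
    linear_combination h3
  set S : LL := ∑ m ∈ c.support.filter (fun m => Wm l m = Wm l m0),
    c m • mo 0 m.2.2.1 m.2.2.2 with hS
  refine ⟨Wm l m0, m0.1, m0.2.1, S, (l : ℤ) * m0.2.2.1 + 2 * m0.2.2.2, ?_, ?_, ?_, ?_⟩
  · have h1 : mo 1 0 0 ^ m0.1 * Yh l ^ m0.2.1 * S = ∑ m ∈ c.support,
        (if Wm l m = Wm l m0 then c m • (mo 1 0 0 ^ m.1 * Yh l ^ m.2.1 * mo 0 m.2.2.1 m.2.2.2)
          else 0) := by
      rw [← Finset.sum_filter, hS, Finset.mul_sum]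
      refine Finset.sum_congr rfl fun m hm => ?_
      obtain ⟨h2, h3⟩ := Finset.mem_filter.1 hm
      obtain ⟨h4, h5, -⟩ := key m h2 h3
      rw [h4, h5, mul_smul_comm]
    have h2 : io l f = ∑ m ∈ c.support, c m • io l (bm l m) := by
      conv_lhs => rw [hsum]
      rw [map_sum]
      exact Finset.sum_congr rfl fun m _ => map_smul _ _ _
    rw [h1, h2]
    refine Tp_sum _ _ _ _ fun m hm => ?_
    split_ifs with h3
    · rw [← h3]
      exact (Tp_bm l m).smul _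
    · have h4 : Wm l m < Wm l m0 := lt_of_le_of_ne (hmax m hm) h3
      have h5 := Tp_bm l m
      refine Tp.of_low (Submodule.smul_mem _ _ ?_)
      have h6 : io l (bm l m) = (io l (bm l m) - mo 1 0 0 ^ m.1 * Yh l ^ m.2.1 * mo 0 m.2.2.1 m.2.2.2) +
        mo 1 0 0 ^ m.1 * Yh l ^ m.2.1 * mo 0 m.2.2.1 m.2.2.2 := by ring
      rw [h6]
      refine add_mem (Su_mono ?_ h5.2) (Su_mono ?_ h5.1)
      · intro n hn
        exact lt_trans hn h4
      · intro n hn
        change wl l n < _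
        have h7 : wl l n = Wm l m := hn
        rw [h7]
        exact h4
  · intro h
    have h1 : S.coeff (0, (m0.2.2.1 : ℤ), (m0.2.2.2 : ℤ)) = c m0 := by
      rw [hS, AddMonoidAlgebra.coeff_sum, Finsupp.finsetSum_apply, Finset.sum_eq_single m0]
      · rw [AddMonoidAlgebra.coeff_smul_apply, coeff_mo, if_pos rfl, smul_eq_mul, mul_one]
      · intro m hm hne
        obtain ⟨h2, h3⟩ := Finset.mem_filter.1 hm
        obtain ⟨h4, h5, -⟩ := key m h2 h3
        rw [AddMonoidAlgebra.coeff_smul_apply, coeff_mo, if_neg, smul_zero]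
        intro h6
        apply hne
        obtain ⟨-, h7⟩ := Prod.ext_iff.1 h6
        obtain ⟨h8, h9⟩ := Prod.ext_iff.1 h7
        simp only at h8 h9
        refine Prod.ext h4 (Prod.ext h5 (Prod.ext ?_ ?_))
        · exact_mod_cast h8
        · exact_mod_cast h9
      · intro h2
        exact absurd (Finset.mem_filter.2 ⟨hm0, (rfl : Wm l m0 = Wm l m0)⟩) h2
    rw [h] at h1
    exact (Finsupp.mem_support_iff.1 hm0) h1.symm
  · rw [hS]
    refine sum_mem fun m hm => Submodule.smul_mem _ _ (mo_mem ?_)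
    obtain ⟨h2, h3⟩ := Finset.mem_filter.1 hm
    obtain ⟨-, -, h4⟩ := key m h2 h3
    exact ⟨rfl, Int.natCast_nonneg _, Int.natCast_nonneg _, h4⟩
  · intro hB
    by_contra hj
    apply hB
    have hj0 : m0.2.1 = 0 := by omega
    have h1 : ∀ m ∈ c.support, m.2.1 = 0 := by
      intro m hm
      have h2 := hmax m hm
      have h3 : -(m.1 : ℤ) + 2 * m.2.1 ≤ -(m0.1 : ℤ) + 2 * m0.2.1 := by
        rcases (Prod.Lex.toLex_le_toLex.1 h2) with h | h
        · exact h.le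
        · exact h.1.le
      rw [hj0] at h3
      have h4 : m.1 ≤ 1 ∨ m.2.1 = 0 := hcB m hm
      omega
    rw [hsum]
    refine sum_mem fun m hm => Subalgebra.smul_mem _ ?_ _
    rw [bm, h1 m hm, pow_zero, mul_one]
    have hx : ax l ∈ Bx l := Algebra.subset_adjoin (by simp)
    have hz : az l ∈ Bx l := Algebra.subset_adjoin (by simp)
    have ht : at' l ∈ Bx l := Algebra.subset_adjoin (by simp)
    exact mul_mem (mul_mem (pow_mem hx _) (pow_mem hz _)) (pow_mem ht _)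

theorem TF_ne {S : LL} (hS : S ≠ 0) (k j : ℕ) : mo 1 0 0 ^ k * Yh l ^ j * S ≠ 0 :=
  mul_ne_zero (mul_ne_zero (pow_ne_zero k (mo_ne _ _ _)) (pow_ne_zero j (Yh_ne l))) hS

theorem io_inj : Function.Injective (io l) := by
  rw [injective_iff_map_eq_zero]
  intro f hf
  by_contra h0
  obtain ⟨g, k, j, S, h, h1, h2, -, -⟩ := TF l h0
  rw [hf] at h1
  exact TF_ne l h2 k j h1.eq_zero

end

end Pool.Agent.Helper72.KRF
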