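import Pool.Agent.Helper72.KRF.Iso

/-!
# The hypersurfaces `x + x² y + z² + G(t) = 0` and their cylinders are smooth
-/

set_option autoImplicit false

namespace Pool.Agent.Helper72.KRF

noncomputable section

variable {k : ℕ} (G : MvPolynomial (Fin k) ℂ)

/-- the quotient map -/
def fq : MvPolynomial (Fin 3 ⊕ Fin k) ℂ →ₐ[ℂ] KR G := Ideal.Quotient.mkₐ ℂ _

/-- the first order retraction on the polynomial ring -/
def pv : Fin 3 ⊕ Fin k → MvPolynomial (Fin 3 ⊕ Fin k) ℂ :=
  Sum.elim ![MvPolynomial.X (Sum.inl 0) - F3 G * (1 - 2 * MvPolynomial.X (Sum.inl 0) *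
      MvPolynomial.X (Sum.inl 1)),
    MvPolynomial.X (Sum.inl 1) - F3 G * (4 * MvPolynomial.X (Sum.inl 1) ^ 2),
    MvPolynomial.X (Sum.inl 2)] (fun j => MvPolynomial.X (Sum.inr j))

theorem aeval_pv : ∃ q, MvPolynomial.aeval (pv G) (F3 G) = F3 G ^ 2 * q := by
  have e : MvPolynomial.aeval (pv G) (F3 G) =
      pv G (Sum.inl 0) + pv G (Sum.inl 0) ^ 2 * pv G (Sum.inl 1) + pv G (Sum.inl 2) ^ 2 +
        MvPolynomial.rename Sum.inr G := by
    conv_lhs => rw [F3]
    rw [map_add, map_add, map_add, map_mul, map_pow, map_pow, MvPolynomial.aeval_X,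
      MvPolynomial.aeval_X, MvPolynomial.aeval_X, MvPolynomial.aeval_rename,
      MvPolynomial.rename_eq_aeval]
    rfl
  have h0 : F3 G = MvPolynomial.X (Sum.inl 0) + MvPolynomial.X (Sum.inl 0) ^ 2 *
      MvPolynomial.X (Sum.inl 1) + MvPolynomial.X (Sum.inl 2) ^ 2 +
      MvPolynomial.rename Sum.inr G := rfl
  have e0 : pv G (Sum.inl 0) = MvPolynomial.X (Sum.inl 0) - F3 G * (1 - 2 *
      MvPolynomial.X (Sum.inl 0) * MvPolynomial.X (Sum.inl 1)) := rfl
  have e1 : pv G (Sum.inl 1) = MvPolynomial.X (Sum.inl 1) -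
      F3 G * (4 * MvPolynomial.X (Sum.inl 1) ^ 2) := rfl
  have e2 : pv G (Sum.inl 2) = MvPolynomial.X (Sum.inl 2) := rfl
  rw [e, e0, e1, e2]
  generalize F3 G = F at h0 ⊢
  generalize MvPolynomial.rename Sum.inr G = Gr at h0 ⊢
  generalize (MvPolynomial.X (Sum.inl 0) : MvPolynomial (Fin 3 ⊕ Fin k) ℂ) = x at h0 ⊢
  generalize (MvPolynomial.X (Sum.inl 1) : MvPolynomial (Fin 3 ⊕ Fin k) ℂ) = y at h0 ⊢
  generalize (MvPolynomial.X (Sum.inl 2) : MvPolynomial (Fin 3 ⊕ Fin k) ℂ) = z at h0 ⊢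
  refine ⟨(1 - 2 * x * y) ^ 2 * y + 2 * x * (1 - 2 * x * y) * (4 * y ^ 2) -
    (1 - 2 * x * y) ^ 2 * (4 * y ^ 2) * F, ?_⟩
  linear_combination -h0

theorem smooth_KR : Algebra.Smooth ℂ (KR G) where
  formallySmooth := by
    have hF : F3 G ∈ RingHom.ker (fq G).toRingHom := by
      rw [RingHom.mem_ker]
      change (Ideal.Quotient.mk _ (F3 G) : KR G) = 0
      exact Ideal.Quotient.eq_zero_iff_mem.2 (Ideal.subset_span rfl)
    have hF2 : F3 G ^ 2 ∈ RingHom.ker (fq G).toRingHom ^ 2 := Ideal.pow_mem_pow hF 2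
    let v : Fin 3 ⊕ Fin k → MvPolynomial (Fin 3 ⊕ Fin k) ℂ ⧸ RingHom.ker (fq G).toRingHom ^ 2 :=
      fun i => Ideal.Quotient.mkₐ ℂ _ (pv G i)
    have hv : MvPolynomial.aeval v (F3 G) = 0 := by
      have h1 : MvPolynomial.aeval v (F3 G) = Ideal.Quotient.mkₐ ℂ
          (RingHom.ker (fq G).toRingHom ^ 2) (MvPolynomial.aeval (pv G) (F3 G)) := by
        rw [MvPolynomial.comp_aeval_apply]
      obtain ⟨q, hq⟩ := aeval_pv G
      rw [h1, hq, map_mul]
      have h2 : Ideal.Quotient.mkₐ ℂ (RingHom.ker (fq G).toRingHom ^ 2) (F3 G ^ 2) = 0 :=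
        Ideal.Quotient.eq_zero_iff_mem.2 hF2
      rw [h2, zero_mul]
    let g : KR G →ₐ[ℂ] MvPolynomial (Fin 3 ⊕ Fin k) ℂ ⧸ RingHom.ker (fq G).toRingHom ^ 2 :=
      Ideal.Quotient.liftₐ _ (MvPolynomial.aeval v) (by
        intro a ha
        obtain ⟨q, rfl⟩ := Ideal.mem_span_singleton'.1 ha
        rw [map_mul]
        change _ * MvPolynomial.aeval v (F3 G) = 0
        rw [hv, mul_zero])
    refine Algebra.FormallySmooth.of_split (fq G) g ?_
    refine AlgHom.ext fun a => ?_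
    obtain ⟨p, rfl⟩ := Ideal.Quotient.mk_surjective a
    have h3 : ((fq G).kerSquareLift.comp g) (Ideal.Quotient.mk _ p) =
        (fq G).kerSquareLift (MvPolynomial.aeval v p) := rfl
    have h4 : (AlgHom.id ℂ (KR G)) (Ideal.Quotient.mk _ p) = fq G p := rfl
    rw [h3, h4]
    have h5 : ((fq G).kerSquareLift.comp (MvPolynomial.aeval v)) = fq G := by
      refine MvPolynomial.algHom_ext fun i => ?_
      rw [AlgHom.comp_apply, MvPolynomial.aeval_X]
      change fq G (pv G i) = fq G (MvPolynomial.X i)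
      have h6 : fq G (F3 G) = 0 := hF
      rcases i with i | i
      · fin_cases i
        · change fq G (MvPolynomial.X (Sum.inl 0) - F3 G * (1 - 2 * MvPolynomial.X (Sum.inl 0) *
            MvPolynomial.X (Sum.inl 1))) = fq G (MvPolynomial.X (Sum.inl 0))
          rw [map_sub, map_mul, h6, zero_mul, sub_zero]
        · change fq G (MvPolynomial.X (Sum.inl 1) - F3 G * (4 * MvPolynomial.X (Sum.inl 1) ^ 2)) =
            fq G (MvPolynomial.X (Sum.inl 1))
          rw [map_sub, map_mul, h6, zero_mul, sub_zero]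
        · rfl
      · rfl
    exact DFunLike.congr_fun h5 p
  finitePresentation := by
    refine Algebra.FinitePresentation.quotient ?_
    exact Submodule.fg_span (Set.finite_singleton _)

theorem smooth_cyl (m : ℕ) : Algebra.Smooth ℂ (MvPolynomial (Fin m) (KR G)) := by
  have h1 := smooth_KR G
  have h2 : Algebra.Smooth (KR G) (MvPolynomial (Fin m) (KR G)) :=
    { formallySmooth := inferInstance, finitePresentation := inferInstance }
  exact Algebra.Smooth.comp ℂ (KR G) (MvPolynomial (Fin m) (KR G))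

end

end Pool.Agent.Helper72.KRF
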