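import Pool.Agent.Helper72.KRF.Ker
import Pool.Agent.Helper72.KRF.Smooth

/-!
# The Koras-Russell threefolds are not isomorphic to affine spaces
-/

set_option autoImplicit false

namespace Pool.Agent.Helper72.KRF

open Finset

noncomputable section

variable {l : ℕ}

theorem ay_notMem : ay l ∉ Bx l := by
  intro h
  let T : Subalgebra ℂ LL :=
    { carrier := {f | f ∈ Su {m : Ex | 0 ≤ m.1}}
      mul_mem' := by
        intro a b ha hb
        exact Su_mul (S := {m : Ex | 0 ≤ m.1}) (T := {m : Ex | 0 ≤ m.1}) (U := {m : Ex | 0 ≤ m.1})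
          (fun m (hm : 0 ≤ m.1) n (hn : 0 ≤ n.1) => (add_nonneg hm hn : 0 ≤ m.1 + n.1)) ha hb
      add_mem' := by
        intro a b ha hb
        exact (Su {m : Ex | 0 ≤ m.1}).add_mem ha hb
      algebraMap_mem' := by
        intro c
        have h1 : algebraMap ℂ LL c = c • mo 0 0 0 := by
          rw [mo_zero, ← Algebra.algebraMap_eq_smul_one]
        change algebraMap ℂ LL c ∈ Su {m : Ex | 0 ≤ m.1}
        rw [h1]
        exact Submodule.smul_mem _ _ (mo_mem (le_refl (0 : ℤ))) }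
  have hT : ∀ f, f ∈ T ↔ f ∈ Su {m : Ex | 0 ≤ m.1} := fun f => Iff.rfl
  have h1 : Bx l ≤ T.comap (io l) := by
    refine Algebra.adjoin_le ?_
    rintro f (rfl | rfl | rfl)
    · change io l (ax l) ∈ Su {m : Ex | 0 ≤ m.1}
      rw [io_x]
      exact mo_mem (zero_le_one : (0 : ℤ) ≤ 1)
    · change io l (az l) ∈ Su {m : Ex | 0 ≤ m.1}
      rw [io_z]
      exact mo_mem (le_refl (0 : ℤ))
    · change io l (at' l) ∈ Su {m : Ex | 0 ≤ m.1}
      rw [io_t]
      exact mo_mem (le_refl (0 : ℤ))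
  have h2 : io l (ay l) ∈ Su {m : Ex | 0 ≤ m.1} := h1 h
  have h3 : (io l (ay l)).coeff (-2, 2, 0) = -1 := by
    rw [io_y]
    have h4 : (Yh l - mo (-1) 0 0).coeff (-2, 2, 0) = -((mo (-2) 2 0).coeff (-2, 2, 0) +
      (mo (-2) 0 l).coeff (-2, 2, 0)) - (mo (-1) 0 0).coeff (-2, 2, 0) := rfl
    rw [h4, coeff_mo, coeff_mo, coeff_mo, if_pos rfl, if_neg, if_neg]
    · norm_num
    · intro h5
      have h6 := congrArg (fun p : Ex => p.2.1) h5
      simp at h6
    · intro h5
      have h6 := congrArg (fun p : Ex => p.2.1) h5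
      simp at h6
  have h4 : (0 : ℤ) ≤ -2 := h2 (-2, 2, 0) (by rw [h3]; norm_num)
  norm_num at h4

/-- the map `ℂ[z, t] → ℂ[X]` -/
def zt2 (l : ℕ) : MvPolynomial (Fin 2) ℂ →ₐ[ℂ] Al l := MvPolynomial.aeval ![az l, at' l]

theorem zt2_inj : Function.Injective (zt2 l) := by
  classical
  rw [injective_iff_map_eq_zero]
  intro p hp
  have h1 : io l (zt2 l p) = ∑ d ∈ p.support, p.coeff d • mo 0 (d 0) (d 1) := by
    conv_lhs => rw [p.as_sum]
    rw [map_sum, map_sum]
    refine Finset.sum_congr rfl fun d _ => ?_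
    have h2 : zt2 l (MvPolynomial.monomial d (p.coeff d)) =
        algebraMap ℂ _ (p.coeff d) * (az l ^ d 0 * at' l ^ d 1) := by
      rw [zt2, MvPolynomial.aeval_monomial, Finsupp.prod_fintype _ _ (fun i => pow_zero _)]
      simp [Fin.prod_univ_two]
    rw [h2]
    simp only [map_mul, AlgHom.commutes, map_pow, io_z, io_t]
    rw [← mo_nat, ← Algebra.smul_def]
  rw [hp, map_zero] at h1
  ext d
  rw [MvPolynomial.coeff_zero]
  by_contra hd
  have h2 : (∑ d ∈ p.support, p.coeff d • mo 0 (d 0) (d 1)).coeff (0, (d 0 : ℤ), (d 1 : ℤ)) =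
      p.coeff d := by
    rw [AddMonoidAlgebra.coeff_sum, Finsupp.finsetSum_apply, Finset.sum_eq_single d]
    · rw [AddMonoidAlgebra.coeff_smul_apply, coeff_mo, if_pos rfl, smul_eq_mul, mul_one]
    · intro d' _ hne
      rw [AddMonoidAlgebra.coeff_smul_apply, coeff_mo, if_neg, smul_zero]
      intro h3
      apply hne
      obtain ⟨-, h4⟩ := Prod.ext_iff.1 h3
      obtain ⟨h5, h6⟩ := Prod.ext_iff.1 h4
      simp only at h5 h6
      ext i
      fin_cases i
      · exact_mod_cast h5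
      · exact_mod_cast h6
    · intro h3
      exact absurd (MvPolynomial.mem_support_iff.2 hd) h3
  rw [← h1] at h2
  exact hd h2.symm

/-- transport of a derivation -/
def trD {A B : Type} [CommRing A] [Algebra ℂ A] [CommRing B] [Algebra ℂ B] (e : A ≃ₐ[ℂ] B)
    (D : Derivation ℂ B B) : Derivation ℂ A A := Derivation.mk'
  (e.symm.toLinearMap ∘ₗ D.toLinearMap ∘ₗ e.toLinearMap) (by
    intro a b
    simp only [LinearMap.comp_apply, AlgEquiv.toLinearMap_apply, Derivation.coeFn_coe,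
      map_mul, Derivation.leibniz, smul_eq_mul, map_add, AlgEquiv.symm_apply_apply])

theorem trD_apply {A B : Type} [CommRing A] [Algebra ℂ A] [CommRing B] [Algebra ℂ B]
    (e : A ≃ₐ[ℂ] B) (D : Derivation ℂ B B) (a : A) : trD e D a = e.symm (D (e a)) := rfl

theorem trD_iter {A B : Type} [CommRing A] [Algebra ℂ A] [CommRing B] [Algebra ℂ B]
    (e : A ≃ₐ[ℂ] B) (D : Derivation ℂ B B) (a : A) (n : ℕ) :
    (⇑(trD e D))^[n] a = e.symm ((⇑D)^[n] (e a)) := by
  induction n with
  | zero => simp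
  | succ n ih =>
    rw [Function.iterate_succ_apply', ih, trD_apply, AlgEquiv.apply_symm_apply,
      Function.iterate_succ_apply']

theorem LN_pderiv {n : ℕ} (j : Fin n) : LN (MvPolynomial.pderiv (R := ℂ) j) := by
  rw [LN_iff, eq_top_iff, ← MvPolynomial.adjoin_range_X]
  refine Algebra.adjoin_le ?_
  rintro _ ⟨i, rfl⟩
  refine nil_of ?_
  rw [MvPolynomial.pderiv_X]
  by_cases h : i = j
  · subst h
    rw [Pi.single_eq_same]
    exact one_mem _
  · rw [Pi.single_eq_of_ne h]
    exact zero_mem _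

/-- **The Koras-Russell threefold `x + x² y + z² + t^l = 0`, `l ≥ 3` odd, is not isomorphic to an
affine space.** -/
theorem not_poly (hl : Odd l) (hl2 : 2 ≤ l) (n : ℕ) :
    IsEmpty (Al l ≃ₐ[ℂ] MvPolynomial (Fin n) ℂ) := by
  constructor
  intro e
  have hn : 2 ≤ n := by
    have h1 := trdeg_le_of_injective (zt2 l) (zt2_inj (l := l))
    have h2 := e.trdeg_eq
    rw [h2, MvPolynomial.trdeg_of_isDomain, MvPolynomial.trdeg_of_isDomain] at h1
    simpa using h1
  apply ay_notMem (l := l)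
  have key : ∀ i : Fin n, e.symm (MvPolynomial.X i) ∈ Bx l := by
    intro i
    obtain ⟨j, hj⟩ : ∃ j : Fin n, i ≠ j := by
      by_cases h0 : i = ⟨0, by omega⟩
      · refine ⟨⟨1, by omega⟩, ?_⟩
        rw [h0]
        intro h1
        simp at h1
      · exact ⟨_, h0⟩
    refine ker_le hl hl2 (trD e (MvPolynomial.pderiv j)) ?_ ?_ ?_
    · intro a
      obtain ⟨k, hk⟩ := LN_pderiv j (e a)
      exact ⟨k, by rw [trD_iter, hk, map_zero]⟩
    · intro h0
      have h1 := congrArg (fun D : Derivation ℂ (Al l) (Al l) => D (e.symm (MvPolynomial.X j))) h0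
      simp only [trD_apply, AlgEquiv.apply_symm_apply, MvPolynomial.pderiv_X_self, map_one,
        Derivation.zero_apply] at h1
      have h2 : (1 : LL) = 0 := by
        rw [← map_one (io l), h1, map_zero]
      exact one_ne_zero h2
    · rw [trD_apply, AlgEquiv.apply_symm_apply, MvPolynomial.pderiv_X_of_ne hj, map_zero]
  have h1 : (⊤ : Subalgebra ℂ (MvPolynomial (Fin n) ℂ)) ≤ (Bx l).comap e.symm.toAlgHom := by
    rw [← MvPolynomial.adjoin_range_X]
    refine Algebra.adjoin_le ?_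
    rintro _ ⟨i, rfl⟩
    exact key i
  have h2 := h1 (Algebra.mem_top (x := e (ay l)))
  have h3 : e.symm (e (ay l)) ∈ Bx l := h2
  rwa [AlgEquiv.symm_apply_apply] at h3

end

end Pool.Agent.Helper72.KRF
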