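import Pool.Agent.Helper72.KRF.Ring

/-!
# All points of the cylinders are flexible
-/

set_option autoImplicit false

namespace Pool.Agent.Helper72.KRF

open Finset

noncomputable section

variable {m k : ℕ} {G : MvPolynomial (Fin k) ℂ}

theorem PD.aeval_zero {φ : Cy m G →ₐ[ℂ] ℂ} {δ : Cy m G →ₗ[ℂ] ℂ} (h : PD φ δ)
    (h0 : ∀ j, δ (ct m G j) = 0) (q : MvPolynomial (Fin k) ℂ) :
    δ (MvPolynomial.aeval (ct m G) q) = 0 := by
  induction q using MvPolynomial.induction_on with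
  | C a => rw [MvPolynomial.aeval_C, h.algebraMap]
  | add p q hp hq => rw [map_add, map_add, hp, hq, add_zero]
  | mul_X p i hp => rw [map_mul, h, MvPolynomial.aeval_X, h0, hp, mul_zero, mul_zero, add_zero]

theorem phi_rel (φ : Cy m G →ₐ[ℂ] ℂ) :
    φ (cx m G) + φ (cx m G) ^ 2 * φ (cy m G) + φ (cz m G) ^ 2 + φ (cg m G) = 0 := by
  have h := congrArg φ (rel m G)
  simpa only [map_add, map_mul, map_pow, map_zero] using h

theorem phi_g (φ : Cy m G →ₐ[ℂ] ℂ) :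
    φ (cg m G) = MvPolynomial.eval (fun j => φ (ct m G j)) G := by
  rw [cg, MvPolynomial.comp_aeval_apply]
  rfl

theorem mem_of_sub {φ : Cy m G →ₐ[ℂ] ℂ} {δ μ : Cy m G →ₗ[ℂ] ℂ} (h : δ - μ ∈ VF φ)
    (hμ : μ ∈ VF φ) : δ ∈ VF φ := by
  have := add_mem h hμ
  rwa [sub_add_cancel] at this

/-- the good points -/
theorem flex_good (φ : Cy m G →ₐ[ℂ] ℂ) (hx : φ (cx m G) ≠ 0) (hZ : φ (cZ m G) ≠ 0)
    (hg : φ (cg m G) ≠ 0) : FlexAt φ := by
  intro δ hδ
  obtain ⟨c0, hc0⟩ : ∃ c, c = δ (cx m G) / (4 * φ (cZ m G) * φ (cg m G)) := ⟨_, rfl⟩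
  refine mem_of_sub (μ := c0 • val φ (DE m G)) ?_
    (Submodule.smul_mem _ _ (val_mem φ _ (LN_DE m G)))
  have p1 : PD φ (δ - c0 • val φ (DE m G)) := hδ.sub ((PD_val φ _).smul c0)
  obtain ⟨δ1, h1⟩ : ∃ d, d = δ - c0 • val φ (DE m G) := ⟨_, rfl⟩
  rw [← h1] at p1 ⊢
  have x1 : δ1 (cx m G) = 0 := by
    rw [h1, LinearMap.sub_apply, LinearMap.smul_apply, val_apply, DE_x, hc0]
    simp only [map_mul, map_ofNat, smul_eq_mul]
    field_simp
    ring
  obtain ⟨c1, hc1⟩ : ∃ c, c = δ1 (cz m G) / φ (cx m G) ^ 2 := ⟨_, rfl⟩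
  refine mem_of_sub (μ := c1 • val φ (D1 m G)) ?_
    (Submodule.smul_mem _ _ (val_mem φ _ (LN_D1 m G)))
  have p2 : PD φ (δ1 - c1 • val φ (D1 m G)) := p1.sub ((PD_val φ _).smul c1)
  obtain ⟨δ2, h2⟩ : ∃ d, d = δ1 - c1 • val φ (D1 m G) := ⟨_, rfl⟩
  rw [← h2] at p2 ⊢
  have x2 : δ2 (cx m G) = 0 := by
    rw [h2, LinearMap.sub_apply, LinearMap.smul_apply, val_apply, D1, mk5_x, map_zero, x1,
      smul_zero, sub_zero]
  have z2 : δ2 (cz m G) = 0 := by
    rw [h2, LinearMap.sub_apply, LinearMap.smul_apply, val_apply, D1, mk5_z, map_pow, hc1,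
      smul_eq_mul, div_mul_cancel₀ _ (pow_ne_zero 2 hx), sub_self]
  obtain ⟨v, hv⟩ : ∃ v : Fin k → ℂ, v = fun j => δ2 (ct m G j) / φ (cx m G) ^ 2 := ⟨_, rfl⟩
  refine mem_of_sub (μ := val φ (Dt m G v)) ?_ (val_mem φ _ (LN_Dt m G v))
  have p3 : PD φ (δ2 - val φ (Dt m G v)) := p2.sub (PD_val φ _)
  obtain ⟨δ3, h3⟩ : ∃ d, d = δ2 - val φ (Dt m G v) := ⟨_, rfl⟩
  rw [← h3] at p3 ⊢
  have x3 : δ3 (cx m G) = 0 := by
    rw [h3, LinearMap.sub_apply, val_apply, Dt, mk5_x, map_zero, x2, sub_zero]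
  have z3 : δ3 (cz m G) = 0 := by
    rw [h3, LinearMap.sub_apply, val_apply, Dt, mk5_z, map_zero, z2, sub_zero]
  have t3 : ∀ j, δ3 (ct m G j) = 0 := by
    intro j
    rw [h3, LinearMap.sub_apply, val_apply, Dt, mk5_t, map_mul, map_pow, AlgHom.commutes, hv]
    change _ - (δ2 (ct m G j) / φ (cx m G) ^ 2) * φ (cx m G) ^ 2 = 0
    rw [div_mul_cancel₀ _ (pow_ne_zero 2 hx), sub_self]
  refine mem_of_sub (μ := ∑ i, δ3 (cw m G i) • val φ (Dw m G i)) ?_
    (sum_mem fun i _ => Submodule.smul_mem _ _ (val_mem φ _ (LN_Dw m G i)))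
  have p4 : PD φ (δ3 - ∑ i, δ3 (cw m G i) • val φ (Dw m G i)) := by
    refine p3.sub ?_
    intro a b
    simp only [LinearMap.sum_apply, LinearMap.smul_apply, smul_eq_mul, PD_val φ _ a b,
      Finset.mul_sum, ← Finset.sum_add_distrib]
    exact Finset.sum_congr rfl fun i _ => by ring
  obtain ⟨δ4, h4⟩ : ∃ d, d = δ3 - ∑ i, δ3 (cw m G i) • val φ (Dw m G i) := ⟨_, rfl⟩
  rw [← h4] at p4 ⊢
  have hs : ∀ a, δ4 a = δ3 a - ∑ i, δ3 (cw m G i) * φ (Dw m G i a) := by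
    intro a
    rw [h4, LinearMap.sub_apply, LinearMap.sum_apply]
    rfl
  have x4 : δ4 (cx m G) = 0 := by
    rw [hs, x3]
    simp [Dw, mk5_x]
  have z4 : δ4 (cz m G) = 0 := by
    rw [hs, z3]
    simp [Dw, mk5_z]
  have t4 : ∀ j, δ4 (ct m G j) = 0 := by
    intro j
    rw [hs, t3]
    simp [Dw, mk5_t]
  have w4 : ∀ i, δ4 (cw m G i) = 0 := by
    intro i
    rw [hs, Finset.sum_eq_single i]
    · simp [Dw, mk5_w]
    · intro j _ hj
      simp [Dw, mk5_w, hj.symm]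
    · simp
  have g4 : δ4 (cg m G) = 0 := p4.aeval_zero t4 G
  have y4 : δ4 (cy m G) = 0 := by
    have h := congrArg δ4 (rel m G)
    rw [map_add, map_add, map_add, p4, pow_two, p4, pow_two (cz m G), p4, x4, z4, g4, map_zero] at h
    have h5 : φ (cx m G) * φ (cx m G) * δ4 (cy m G) = 0 := by
      rw [map_mul] at h
      linear_combination h
    exact (mul_eq_zero.1 h5).resolve_left (mul_ne_zero hx hx)
  have : δ4 = 0 := by
    apply PD_ext p4
    rintro (i | i | i)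
    · fin_cases i
      · exact x4
      · exact y4
      · exact z4
    · exact w4 i
    · exact t4 i
  rw [this]
  exact zero_mem _

theorem comp_apply' (φ : Cy m G →ₐ[ℂ] ℂ) (α : Cy m G ≃ₐ[ℂ] Cy m G) (a : Cy m G) :
    (φ.comp α.toAlgHom) a = φ (α a) := rfl

theorem exists_ne (hG : G ≠ 0) : ∃ t : Fin k → ℂ, MvPolynomial.eval t G ≠ 0 := by
  by_contra h
  push Not at h
  exact hG (MvPolynomial.funext fun t => by rw [h, map_zero])

/-- the points with `x ≠ 0` -/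
theorem flex_x (hG : G ≠ 0) (φ : Cy m G →ₐ[ℂ] ℂ) (hx : φ (cx m G) ≠ 0) : FlexAt φ := by
  obtain ⟨t, ht⟩ := exists_ne hG
  obtain ⟨v, hv⟩ : ∃ v : Fin k → ℂ, v = fun j => (t j - φ (ct m G j)) / φ (cx m G) ^ 2 := ⟨_, rfl⟩
  apply FlexAt.of_aut (expA (Dt m G v) (LN_Dt m G v) 1)
  obtain ⟨φ1, h1⟩ : ∃ f, f = φ.comp (expA (Dt m G v) (LN_Dt m G v) 1).toAlgHom := ⟨_, rfl⟩
  rw [← h1]
  have x1 : φ1 (cx m G) = φ (cx m G) := by
    rw [h1, comp_apply', expA_zero (Dt m G v) _ _ (mk5_x _)]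
  have t1 : ∀ j, φ1 (ct m G j) = t j := by
    intro j
    have e1 : Dt m G v (ct m G j) = algebraMap ℂ _ (v j) * cx m G ^ 2 := mk5_t _ j
    rw [h1, comp_apply', expA_one _ _ _ (by
      rw [e1, Derivation.leibniz, Derivation.map_algebraMap, Derivation.leibniz_pow]
      have : Dt m G v (cx m G) = 0 := mk5_x _
      rw [this]
      simp), e1, one_smul, map_add, map_mul, map_pow, AlgHom.commutes, hv]
    change _ + (t j - φ (ct m G j)) / φ (cx m G) ^ 2 * _ = _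
    rw [div_mul_cancel₀ _ (pow_ne_zero 2 hx)]
    ring
  have g1 : φ1 (cg m G) ≠ 0 := by
    rw [phi_g]
    simp only [t1]
    exact ht
  have hx1 : φ1 (cx m G) ≠ 0 := by
    rw [x1]
    exact hx
  obtain ⟨s, hs⟩ : ∃ s, s = (1 - φ1 (cZ m G)) / φ1 (cx m G) ^ 2 := ⟨_, rfl⟩
  apply FlexAt.of_aut (expA (D1 m G) (LN_D1 m G) s)
  obtain ⟨φ2, h2⟩ : ∃ f, f = φ1.comp (expA (D1 m G) (LN_D1 m G) s).toAlgHom := ⟨_, rfl⟩
  rw [← h2]
  have x2 : φ2 (cx m G) = φ1 (cx m G) := by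
    rw [h2, comp_apply', expA_zero (D1 m G) _ _ (mk5_x _)]
  have w2 : φ2 (cw m G 0) = φ1 (cw m G 0) := by
    rw [h2, comp_apply', expA_zero (D1 m G) _ _ (mk5_w _ _)]
  have z2 : φ2 (cz m G) = φ1 (cz m G) + s * φ1 (cx m G) ^ 2 := by
    have e1 : D1 m G (cz m G) = cx m G ^ 2 := mk5_z _
    rw [h2, comp_apply', expA_one _ _ _ (by
      rw [e1, Derivation.leibniz_pow]
      have : D1 m G (cx m G) = 0 := mk5_x _
      rw [this]
      simp), e1, map_add, map_smul, map_pow, smul_eq_mul]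
  have g2 : φ2 (cg m G) = φ1 (cg m G) := by
    rw [h2, comp_apply', expA_zero _ _ _ (by
      rw [D1, mk5_g]
      simp)]
  refine flex_good φ2 (by rw [x2]; exact hx1) ?_ (by rw [g2]; exact g1)
  have : φ2 (cZ m G) = 1 := by
    rw [cZ, map_add, map_mul, x2, w2, z2, hs, div_mul_cancel₀ _ (pow_ne_zero 2 hx1), cZ, map_add,
      map_mul]
    ring
  rw [this]
  exact one_ne_zero

/-- the points with `x = 0`, `z ≠ 0` -/
theorem flex_z (hG : G ≠ 0) (φ : Cy m G →ₐ[ℂ] ℂ) (hx : φ (cx m G) = 0) (hz : φ (cz m G) ≠ 0) :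
    FlexAt φ := by
  have hrel := phi_rel φ
  have hg : φ (cg m G) = - φ (cz m G) ^ 2 := by
    rw [hx] at hrel
    linear_combination hrel
  have hg0 : φ (cg m G) ≠ 0 := by
    rw [hg]
    exact neg_ne_zero.2 (pow_ne_zero 2 hz)
  have hZ : φ (cZ m G) = φ (cz m G) := by
    rw [cZ, map_add, map_mul, hx, zero_mul, add_zero]
  have d2 : DE m G (DE m G (cx m G)) = -8 * cp m G * cg m G ^ 2 := by
    have h4 : (4 : Cy m G) * cZ m G * cg m G = 2 * (2 * (cZ m G * cg m G)) := by ring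
    rw [DE_x, h4, der_two, der_two, Derivation.leibniz, DE_g, DE_Z]
    simp only [smul_eq_mul]
    ring
  have d3 : DE m G (DE m G (DE m G (cx m G))) = 0 := by
    have h8 : (-8 : Cy m G) * cp m G * cg m G ^ 2 = 2 * (-4 * cp m G * cg m G ^ 2) := by ring
    have h9 : (-4 : Cy m G) * cp m G * cg m G ^ 2 = 2 * (2 * (-(cp m G * cg m G ^ 2))) := by ring
    rw [d2, h8, der_two, h9, der_two, der_two, map_neg, Derivation.leibniz,
      Derivation.leibniz_pow, DE_g, DE_p]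
    simp
  have hval : ∀ s : ℂ, φ (expA (DE m G) (LN_DE m G) s (cx m G)) =
      4 * s * φ (cg m G) * (φ (cz m G) - s * φ (cp m G) * φ (cg m G)) := by
    intro s
    rw [expA_two _ _ _ d3, d2, DE_x, map_add, map_add, map_smul, map_smul, hx]
    simp only [map_mul, map_neg, map_ofNat, map_pow, smul_eq_mul, hZ]
    ring
  obtain ⟨s, hs⟩ : ∃ s : ℂ, φ (expA (DE m G) (LN_DE m G) s (cx m G)) ≠ 0 := by
    by_cases h : φ (cz m G) - φ (cp m G) * φ (cg m G) = 0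
    · refine ⟨2, ?_⟩
      rw [hval]
      refine mul_ne_zero (mul_ne_zero (by norm_num) hg0) ?_
      intro h'
      apply hz
      linear_combination 2 * h - h'
    · refine ⟨1, ?_⟩
      rw [hval]
      refine mul_ne_zero (mul_ne_zero (by norm_num) hg0) ?_
      intro h'
      apply h
      linear_combination h'
  exact FlexAt.of_aut (expA (DE m G) (LN_DE m G) s)
    (flex_x hG (φ.comp (expA (DE m G) (LN_DE m G) s).toAlgHom) hs)

/-- All points are flexible. -/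
theorem flex (hG : G ≠ 0) (φ : Cy m G →ₐ[ℂ] ℂ) : FlexAt φ := by
  by_cases hx : φ (cx m G) = 0
  swap
  · exact flex_x hG φ hx
  by_cases hz : φ (cz m G) = 0
  swap
  · exact flex_z hG φ hx hz
  apply FlexAt.of_aut (expA (Dw m G 0) (LN_Dw m G 0) (1 - φ (cw m G 0)))
  obtain ⟨φ1, h1⟩ : ∃ f, f = φ.comp (expA (Dw m G 0) (LN_Dw m G 0) (1 - φ (cw m G 0))).toAlgHom :=
    ⟨_, rfl⟩
  rw [← h1]
  have x1 : φ1 (cx m G) = 0 := by
    rw [h1, comp_apply', expA_zero (Dw m G 0) _ _ (mk5_x _), hx]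
  have z1 : φ1 (cz m G) = 0 := by
    rw [h1, comp_apply', expA_zero (Dw m G 0) _ _ (mk5_z _), hz]
  have w1 : φ1 (cw m G 0) = 1 := by
    have e1 : Dw m G 0 (cw m G 0) = 1 := by
      rw [Dw, mk5_w, if_pos rfl]
    rw [h1, comp_apply', expA_one _ _ _ (by rw [e1, Derivation.map_one_eq_zero]), e1, map_add,
      map_smul, map_one φ, smul_eq_mul]
    ring
  have Z1 : φ1 (cZ m G) = 0 := by
    rw [cZ, map_add, map_mul, x1, z1, zero_mul, add_zero]
  have p1 : φ1 (cp m G) = 1 := by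
    rw [cp, map_sub, map_add, map_mul, map_mul, map_mul, x1, Z1, map_one φ1]
    ring
  have o1 : φ1 (co m G) = 2 := by
    rw [co, map_add, map_mul, map_mul, map_mul, Z1, p1, w1, map_ofNat]
    ring
  obtain ⟨t, ht⟩ := exists_ne hG
  obtain ⟨v, hv⟩ : ∃ v : Fin k → ℂ, v = fun j => (t j - φ1 (ct m G j)) / 4 := ⟨_, rfl⟩
  apply FlexAt.of_aut (expA (DV m G v) (LN_DV m G v) 1)
  obtain ⟨φ2, h2⟩ : ∃ f, f = φ1.comp (expA (DV m G v) (LN_DV m G v) 1).toAlgHom := ⟨_, rfl⟩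
  rw [← h2]
  have t2 : ∀ j, φ2 (ct m G j) = t j := by
    intro j
    rw [h2, comp_apply', expA_one _ _ _ (by
      rw [DV_t, mul_assoc 2, Derivation.leibniz, Derivation.map_algebraMap, der_two,
        Derivation.leibniz, DV_p, DV_o]
      simp), DV_t, one_smul, map_add, map_mul, map_mul, map_mul, AlgHom.commutes, p1, o1,
      map_ofNat, hv]
    change _ + (t j - φ1 (ct m G j)) / 4 * _ = _
    ring
  have g2 : φ2 (cg m G) ≠ 0 := by
    rw [phi_g]
    simp only [t2]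
    exact ht
  by_cases hx2 : φ2 (cx m G) = 0
  swap
  · exact flex_x hG φ2 hx2
  refine flex_z hG φ2 hx2 fun hz2 => g2 ?_
  have hrel := phi_rel φ2
  rw [hx2, hz2] at hrel
  linear_combination hrel

end

end Pool.Agent.Helper72.KRF
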