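import Pool.Agent.Helper72.KRF.Nf

/-!
# Locally nilpotent derivations of `x + x² y + z² + t^l = 0`, `l ≥ 3` odd
-/

set_option autoImplicit false

namespace Pool.Agent.Helper72.KRF

open Finset

noncomputable section

variable {l : ℕ}

/-- `z² t^(-l)` -/
def zt (l : ℕ) : LL := mo 0 2 (-(l : ℤ))

theorem zt_pow (i : ℕ) : zt l ^ i = mo 0 (2 * i) (-((l : ℤ) * i)) := by
  rw [zt, mo_pow]
  congr 1 <;> ring

theorem mo_nat (a b : ℕ) : mo 0 a b = mo 0 1 0 ^ a * mo 0 0 1 ^ b := by
  rw [mo_pow, mo_pow, mo_mul]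
  congr 1 <;> ring

/-- homogeneous polynomials in `z, t` as polynomials in `z² t^(-l)` -/
theorem Sh_form (hl : Odd l) {h : ℤ} {S : LL} (hS : S ∈ Sh l h) (hS0 : S ≠ 0) :
    ∃ (a b : ℕ) (q : Polynomial ℂ), (∀ i, q.coeff i ≠ 0 → l * i ≤ b) ∧
      S = mo 0 a b * Polynomial.aeval (zt l) q ∧ (l : ℤ) * a + 2 * b = h ∧ q ≠ 0 := by
  obtain ⟨m, hm⟩ := exists_coeff hS0
  obtain ⟨-, hm1, hm2, hm3⟩ := hS m hm
  obtain ⟨e, he⟩ := hl
  obtain ⟨a, ha1⟩ : ∃ a : ℕ, (a : ℤ) = h % 2 :=
    ⟨(h % 2).toNat, Int.toNat_of_nonneg (Int.emod_nonneg _ (by norm_num))⟩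
  have hpar : ∀ a' b' : ℤ, (l : ℤ) * a' + 2 * b' = h → a' % 2 = h % 2 := by
    intro a' b' h1
    have h2 : (l : ℤ) * a' = 2 * (e * a') + a' := by
      rw [he]
      push_cast
      ring
    omega
  -- the exponent b
  have hb0 : ∃ b : ℕ, (l : ℤ) * a + 2 * b = h := by
    have h1 := hpar _ _ hm3
    have h2 : ∃ i : ℕ, m.2.1 = a + 2 * i := by
      refine ⟨((m.2.1 - a) / 2).toNat, ?_⟩
      have h3 : (a : ℤ) < 2 := by rw [ha1]; exact Int.emod_lt_of_pos _ (by norm_num)
      omega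
    obtain ⟨i, hi⟩ := h2
    refine ⟨(m.2.2 + l * i).toNat, ?_⟩
    rw [Int.toNat_of_nonneg (add_nonneg hm2 (by positivity)), ← hm3, hi]
    ring
  obtain ⟨b, hb⟩ := hb0
  let M : Submodule ℂ LL :=
    { carrier := {F | ∃ q : Polynomial ℂ, (∀ i, q.coeff i ≠ 0 → l * i ≤ b) ∧
        F = mo 0 a b * Polynomial.aeval (zt l) q}
      add_mem' := by
        rintro _ _ ⟨q, hq, rfl⟩ ⟨q', hq', rfl⟩
        refine ⟨q + q', fun i hi => ?_, by rw [map_add, mul_add]⟩
        rw [Polynomial.coeff_add] at hi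
        by_cases h0 : q.coeff i = 0
        · exact hq' i (by rw [h0, zero_add] at hi; exact hi)
        · exact hq i h0
      zero_mem' := ⟨0, fun i hi => absurd (Polynomial.coeff_zero i) hi, by simp⟩
      smul_mem' := by
        rintro c _ ⟨q, hq, rfl⟩
        refine ⟨c • q, fun i hi => hq i fun h0 => hi ?_, by rw [map_smul, mul_smul_comm]⟩
        rw [Polynomial.coeff_smul, h0, smul_zero] }
  have hSM : S ∈ M := by
    refine (Su_le ?_) hS
    rintro k a' b' ⟨h1, h2, h3, h4⟩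
    simp only at h1 h2 h3 h4
    have h5 := hpar _ _ h4
    have h6 : ∃ i : ℕ, a' = a + 2 * i := by
      refine ⟨((a' - a) / 2).toNat, ?_⟩
      have h3 : (a : ℤ) < 2 := by rw [ha1]; exact Int.emod_lt_of_pos _ (by norm_num)
      omega
    obtain ⟨i, rfl⟩ := h6
    have h7 : b' = b - (l : ℤ) * i := by
      have h8 : 2 * b' = 2 * (b - (l : ℤ) * i) := by linear_combination h4 - hb
      exact mul_left_cancel₀ two_ne_zero h8
    subst h1 h7
    refine ⟨Polynomial.X ^ i, fun i' hi' => ?_, ?_⟩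
    · rw [Polynomial.coeff_X_pow] at hi'
      have h9 : i' = i := by
        by_contra h10
        exact hi' (if_neg h10)
      subst h9
      have h10 : (l : ℤ) * i' ≤ b := by linarith
      exact_mod_cast h10
    · rw [map_pow, Polynomial.aeval_X, zt_pow, mo_mul]
      congr 1
  obtain ⟨q, hq, hSq⟩ := hSM
  refine ⟨a, b, q, hq, hSq, hb, ?_⟩
  rintro rfl
  rw [map_zero, mul_zero] at hSq
  exact hS0 hSq

/-- a homogeneous polynomial in `z, t` in the kernel is constant -/
theorem Sh_ker (hl : Odd l) (hl2 : 2 ≤ l) {δ : Derivation ℂ LL LL} (hz : mo 0 1 0 ∈ nil δ)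
    (ht : mo 0 0 1 ∈ nil δ) (hz0 : δ (mo 0 1 0) ≠ 0) (ht0 : δ (mo 0 0 1) ≠ 0) {h : ℤ} {S : LL}
    (hS : S ∈ Sh l h) (hS0 : S ≠ 0) (hk : δ S = 0) : ∃ c : ℂ, S = algebraMap ℂ LL c := by
  obtain ⟨a, b, q, hq, hSq, hh, hq0⟩ := Sh_form hl hS hS0
  have hnil : ∀ a b : ℕ, mo 0 a b ∈ nil δ := by
    intro a b
    rw [mo_nat]
    exact mul_mem (pow_mem hz _) (pow_mem ht _)
  by_cases hdeg : q.natDegree = 0
  · rw [Polynomial.natDegree_eq_zero] at hdeg
    obtain ⟨c, rfl⟩ := hdeg
    rw [Polynomial.aeval_C] at hSq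
    have hc : algebraMap ℂ LL c ≠ 0 := by
      intro h0
      rw [h0, mul_zero] at hSq
      exact hS0 hSq
    have h1 := (ker_of_mul (hnil a b) (Subalgebra.algebraMap_mem _ _)
      (mul_ne_zero (mo_ne _ _ _) hc) (by rw [← hSq]; exact hk)).1
    rw [mo_nat] at h1
    have hZ : mo 0 1 0 ≠ 0 := mo_ne _ _ _
    have hT : mo 0 0 1 ≠ 0 := mo_ne _ _ _
    have h2 := ker_of_mul (pow_mem hz a) (pow_mem ht b)
      (mul_ne_zero (pow_ne_zero _ hZ) (pow_ne_zero _ hT)) h1
    have ha : a = 0 := by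
      by_contra h3
      exact hz0 (ker_of_pow h3 hz hZ h2.1)
    have hb : b = 0 := by
      by_contra h3
      exact ht0 (ker_of_pow h3 ht hT h2.2)
    subst ha hb
    refine ⟨c, ?_⟩
    rw [hSq, mo_nat, pow_zero, pow_zero, one_mul, one_mul]
  · exfalso
    have hdeg' : q.degree ≠ 0 := by
      intro h0
      exact hdeg (Polynomial.natDegree_eq_of_degree_eq_some h0)
    obtain ⟨r, hr⟩ := IsAlgClosed.exists_root q hdeg'
    obtain ⟨q1, hq1⟩ := Polynomial.dvd_iff_isRoot.2 hr
    have hq10 : q1 ≠ 0 := by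
      rintro rfl
      rw [mul_zero] at hq1
      exact hq0 hq1
    have hdeg1 : q.natDegree = q1.natDegree + 1 := by
      rw [hq1, Polynomial.natDegree_mul (Polynomial.X_sub_C_ne_zero r) hq10,
        Polynomial.natDegree_X_sub_C, add_comm]
    have hlead : l * q.natDegree ≤ b := hq _ (Polynomial.leadingCoeff_ne_zero.2 hq0)
    set S1 : LL := mo 0 a ((b : ℤ) - l) * Polynomial.aeval (zt l) q1 with hS1
    have hfac : S = (mo 0 1 0 ^ 2 - algebraMap ℂ LL r * mo 0 0 1 ^ l) * S1 := by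
      rw [hSq, hq1, map_mul, map_sub, Polynomial.aeval_X, Polynomial.aeval_C, hS1]
      have h1 : mo 0 a b = mo 0 0 1 ^ l * mo 0 a ((b : ℤ) - l) := by
        rw [mo_pow, mo_mul]
        congr 1 <;> ring
      have h2 : mo 0 0 1 ^ l * zt l = mo 0 1 0 ^ 2 := by
        rw [zt, mo_pow, mo_pow, mo_mul]
        congr 1 <;> push_cast <;> ring
      rw [h1, ← h2]
      ring
    have hS1n : S1 ∈ nil δ := by
      rw [hS1, Polynomial.aeval_eq_sum_range, Finset.mul_sum]
      refine sum_mem fun i hi => ?_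
      rw [mul_smul_comm]
      refine Subalgebra.smul_mem _ ?_ _
      rw [zt_pow, mo_mul]
      have h1 : l * (i + 1) ≤ b := by
        refine le_trans (Nat.mul_le_mul_left l ?_) hlead
        rw [hdeg1]
        exact Finset.mem_range.1 hi
      obtain ⟨b', hb'⟩ := Nat.exists_eq_add_of_le h1
      have h2 : mo (0 + 0) ((a : ℤ) + 2 * i) ((b : ℤ) - l + -((l : ℤ) * i)) =
          mo 0 ((a + 2 * i : ℕ) : ℤ) ((b' : ℕ) : ℤ) := by
        rw [hb']
        congr 1
        push_cast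
        ring
      rw [h2]
      exact hnil _ _
    have hu : mo 0 1 0 ^ 2 - algebraMap ℂ LL r * mo 0 0 1 ^ l ∈ nil δ :=
      sub_mem (pow_mem hz 2) (mul_mem (Subalgebra.algebraMap_mem _ _) (pow_mem ht l))
    have hu0 : mo 0 1 0 ^ 2 - algebraMap ℂ LL r * mo 0 0 1 ^ l ≠ 0 := by
      intro h0
      rw [h0, zero_mul] at hfac
      exact hS0 hfac
    have hk1 := (ker_of_mul hu hS1n (by rw [← hfac]; exact hS0) (by rw [← hfac]; exact hk)).1
    by_cases hr0 : r = 0
    · rw [hr0, map_zero, zero_mul, sub_zero] at hk1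
      exact hz0 (ker_of_pow two_ne_zero hz (mo_ne _ _ _) hk1)
    · have hr1 : algebraMap ℂ LL (-r) ≠ 0 := by
        intro h0
        have h1 := (algebraMap ℂ LL).injective (h0.trans (map_zero _).symm)
        exact hr0 (neg_eq_zero.1 h1)
      refine hz0 (lemA (α := 1) (β := algebraMap ℂ LL (-r)) le_rfl hl2 one_ne_zero hr1
        δ.map_one_eq_zero (δ.map_algebraMap _) hu0 hk1 hz ht ?_).1
      rw [map_neg]
      ring

theorem al_top {S : Subalgebra ℂ (Al l)} (hx : ax l ∈ S) (hy : ay l ∈ S) (hz : az l ∈ S)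
    (ht : at' l ∈ S) : S = ⊤ := by
  rw [eq_top_iff]
  intro f _
  have h := span_all l f
  have h1 : Submodule.span ℂ (Set.range (bm l)) ≤ Subalgebra.toSubmodule S := by
    refine Submodule.span_le.2 ?_
    rintro _ ⟨⟨k, j, a, b⟩, rfl⟩
    have h2 : bm l (k, j, a, b) ∈ S :=
      mul_mem (mul_mem (mul_mem (pow_mem hx _) (pow_mem hy _)) (pow_mem hz _)) (pow_mem ht _)
    exact h2
  exact h1 h

/-! ### the main theorem -/

theorem Tp_iter {w : Ex →+ Wt} {P Q R P' Q' R' : LL} {g : Wt} (hP : Tp w P g P')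
    (hQ : Tp w Q g Q') (hR : Tp w R g R') {f F : LL} {h : Wt} (hf : Tp w f h F) (n : ℕ) :
    Tp w ((⇑(DL P Q R))^[n] f) (n • g + h) ((⇑(DL P' Q' R'))^[n] F) := by
  induction n with
  | zero => rw [zero_smul, zero_add]; exact hf
  | succ n ih =>
    rw [Function.iterate_succ_apply', Function.iterate_succ_apply', succ_nsmul', add_assoc]
    exact Tp.dl hP hQ hR ih

theorem hom_unique {w : Ex →+ Wt} {F : LL} {g g' : Wt} (h : F ∈ Hm w g) (h' : F ∈ Hm w g')
    (h0 : F ≠ 0) : g = g' := by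
  obtain ⟨m, hm⟩ := exists_coeff h0
  have h1 : w m = g := h m hm
  have h2 : w m = g' := h' m hm
  rw [← h1, h2]

theorem Hm_pow {w : Ex →+ Wt} {F : LL} {g : Wt} (h : F ∈ Hm w g) (n : ℕ) :
    F ^ n ∈ Hm w (n • g) := ((Tp.of_hom h).pow n).1

section

variable (D : Derivation ℂ (Al l) (Al l))

def PP : LL := mo (-1) 0 0 * io l (D (ax l))
def QQ : LL := mo 0 (-1) 0 * io l (D (az l))
def RR : LL := mo 0 0 (-1) * io l (D (at' l))

/-- the extension of `D` -/
theorem DL_io (f : Al l) : DL (PP D) (QQ D) (RR D) (io l f) = io l (D f) := by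
  set d := DL (PP D) (QQ D) (RR D) with hd
  let S : Subalgebra ℂ (Al l) :=
    { carrier := {f | d (io l f) = io l (D f)}
      mul_mem' := by
        intro a b ha hb
        have ha' : d (io l a) = io l (D a) := ha
        have hb' : d (io l b) = io l (D b) := hb
        change d (io l (a * b)) = io l (D (a * b))
        rw [map_mul, Derivation.leibniz, Derivation.leibniz, ha', hb']
        simp only [smul_eq_mul, map_add, map_mul]
      add_mem' := by
        intro a b ha hb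
        have ha' : d (io l a) = io l (D a) := ha
        have hb' : d (io l b) = io l (D b) := hb
        change d (io l (a + b)) = io l (D (a + b))
        rw [map_add, map_add, map_add, map_add, ha', hb']
      algebraMap_mem' := by
        intro c
        change d (io l (algebraMap ℂ _ c)) = io l (D (algebraMap ℂ _ c))
        rw [AlgHom.commutes, Derivation.map_algebraMap, Derivation.map_algebraMap, map_zero] }
  have hS : ∀ f, f ∈ S ↔ d (io l f) = io l (D f) := fun f => Iff.rfl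
  have hx : ax l ∈ S := by
    rw [hS, io_x, hd, DL_mo]
    simp only [Int.cast_one, one_smul, Int.cast_zero, zero_smul, add_zero, PP]
    rw [mul_assoc, mul_comm, mul_assoc, mo_mul]
    norm_num [mo_zero]
  have hz : az l ∈ S := by
    rw [hS, io_z, hd, DL_mo]
    simp only [Int.cast_one, one_smul, Int.cast_zero, zero_smul, add_zero, zero_add, QQ]
    rw [mul_assoc, mul_comm, mul_assoc, mo_mul]
    norm_num [mo_zero]
  have ht : at' l ∈ S := by
    rw [hS, io_t, hd, DL_mo]
    simp only [Int.cast_one, one_smul, Int.cast_zero, zero_smul, add_zero, zero_add, RR]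
    rw [mul_assoc, mul_comm, mul_assoc, mo_mul]
    norm_num [mo_zero]
  have hxy : ax l ^ 2 * ay l ∈ S := by
    have h1 : ax l ^ 2 * ay l = -(ax l + az l ^ 2 + at' l ^ l) := by
      linear_combination arel l
    rw [h1]
    exact neg_mem (add_mem (add_mem hx (pow_mem hz 2)) (pow_mem ht l))
  have hy : ay l ∈ S := by
    rw [hS] at hxy ⊢
    have hx2 : d (io l (ax l ^ 2)) = io l (D (ax l ^ 2)) := (hS _).1 (pow_mem hx 2)
    rw [map_mul, Derivation.leibniz, Derivation.leibniz, hx2] at hxy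
    simp only [smul_eq_mul, map_add, map_mul] at hxy
    have h2 : io l (ax l ^ 2) * d (io l (ay l)) = io l (ax l ^ 2) * io l (D (ay l)) :=
      add_right_cancel hxy
    refine mul_left_cancel₀ ?_ h2
    rw [map_pow, io_x]
    exact pow_ne_zero 2 (mo_ne _ _ _)
  have h := al_top hx hy hz ht
  have h1 : f ∈ S := by rw [h]; exact Algebra.mem_top
  exact h1

theorem DL_iter (f : Al l) (n : ℕ) :
    (⇑(DL (PP D) (QQ D) (RR D)))^[n] (io l f) = io l ((⇑D)^[n] f) := by
  induction n with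
  | zero => rfl
  | succ n ih => rw [Function.iterate_succ_apply', ih, DL_io, Function.iterate_succ_apply']

theorem PQR_ne (hD0 : D ≠ 0) : ¬ (PP D = 0 ∧ QQ D = 0 ∧ RR D = 0) := by
  rintro ⟨h1, h2, h3⟩
  apply hD0
  ext f
  apply io_inj l
  rw [← DL_io, h1, h2, h3, DL_apply]
  simp

end

end

end Pool.Agent.Helper72.KRF
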