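import Pool.Agent.Helper72.KRF.Flex

/-!
# The cylinders over `x + x² y + z² + G(t) = 0` and their locally nilpotent derivations
-/

set_option autoImplicit false

namespace Pool.Agent.Helper72.KRF

open Finset

noncomputable section

/-- the variables `x, y, z`, `w_0, ..., w_m`, `t_1, ..., t_k` -/
abbrev Ix (m k : ℕ) : Type := Fin 3 ⊕ (Fin (m + 1) ⊕ Fin k)

/-- the equation of the cylinder -/
def F4 (m : ℕ) {k : ℕ} (G : MvPolynomial (Fin k) ℂ) : MvPolynomial (Ix m k) ℂ :=
  MvPolynomial.X (Sum.inl 0) + MvPolynomial.X (Sum.inl 0) ^ 2 * MvPolynomial.X (Sum.inl 1) +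
    MvPolynomial.X (Sum.inl 2) ^ 2 + MvPolynomial.rename (fun j => Sum.inr (Sum.inr j)) G

/-- the coordinate ring of the cylinder -/
abbrev Cy (m : ℕ) {k : ℕ} (G : MvPolynomial (Fin k) ℂ) : Type := QR (F4 m G)

variable (m : ℕ) {k : ℕ} (G : MvPolynomial (Fin k) ℂ)

def cx : Cy m G := gen _ (Sum.inl 0)
def cy : Cy m G := gen _ (Sum.inl 1)
def cz : Cy m G := gen _ (Sum.inl 2)
def cw (i : Fin (m + 1)) : Cy m G := gen _ (Sum.inr (Sum.inl i))
def ct (j : Fin k) : Cy m G := gen _ (Sum.inr (Sum.inr j))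
def cg : Cy m G := MvPolynomial.aeval (ct m G) G
def cj (j : Fin k) : Cy m G := MvPolynomial.aeval (ct m G) (MvPolynomial.pderiv j G)

theorem rel : cx m G + cx m G ^ 2 * cy m G + cz m G ^ 2 + cg m G = 0 := by
  have h := aeval_F (F := F4 m G)
  rw [F4, map_add, map_add, map_add, map_mul, map_pow, map_pow, MvPolynomial.aeval_X,
    MvPolynomial.aeval_X, MvPolynomial.aeval_X, MvPolynomial.aeval_rename] at h
  exact h

theorem mkDer_F (v : Ix m k → Cy m G) :
    MvPolynomial.mkDerivation ℂ v (F4 m G) =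
      (1 + 2 * cx m G * cy m G) * v (Sum.inl 0) + cx m G ^ 2 * v (Sum.inl 1) +
        2 * cz m G * v (Sum.inl 2) + ∑ j, cj m G j * v (Sum.inr (Sum.inr j)) := by
  have hsm : ∀ (p : MvPolynomial (Ix m k) ℂ) (a : Cy m G),
      p • a = MvPolynomial.aeval (gen (F4 m G)) p * a := by
    intro p a
    rw [← mk_aeval]
    rfl
  have h1 : MvPolynomial.rename (fun j => (Sum.inr (Sum.inr j) : Ix m k)) G =
      MvPolynomial.aeval (fun j => (MvPolynomial.X (Sum.inr (Sum.inr j)) : MvPolynomial (Ix m k) ℂ)) G := by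
    rw [MvPolynomial.rename_eq_aeval]
    rfl
  have h0 : MvPolynomial.mkDerivation ℂ v (F4 m G) = MvPolynomial.mkDerivation ℂ v
      (MvPolynomial.X (Sum.inl 0) + MvPolynomial.X (Sum.inl 0) ^ 2 * MvPolynomial.X (Sum.inl 1) +
      MvPolynomial.X (Sum.inl 2) ^ 2 + MvPolynomial.rename (fun j => Sum.inr (Sum.inr j)) G) := rfl
  rw [h0, map_add, map_add, map_add, h1, chain]
  simp only [Derivation.leibniz, Derivation.leibniz_pow, MvPolynomial.mkDerivation_X]
  simp only [hsm, map_pow, MvPolynomial.aeval_X, nsmul_eq_mul]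
  have h2 : ∀ j, MvPolynomial.aeval (gen (F4 m G)) (MvPolynomial.aeval
      (fun j => (MvPolynomial.X (Sum.inr (Sum.inr j)) : MvPolynomial (Ix m k) ℂ))
      (MvPolynomial.pderiv j G)) = cj m G j := by
    intro j
    rw [MvPolynomial.comp_aeval_apply]
    simp only [MvPolynomial.aeval_X]
    rfl
  rw [Finset.sum_congr rfl (fun j _ => by rw [h2 j])]
  simp only [cx, cy, cz, Nat.cast_ofNat, Nat.add_one_sub_one, pow_one]
  ring

/-- values of a derivation on the variables -/
def vec (a b c : Cy m G) (d : Fin (m + 1) → Cy m G) (e : Fin k → Cy m G) : Ix m k → Cy m G :=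
  Sum.elim ![a, b, c] (Sum.elim d e)

/-- the derivation with given values -/
def mk5 (a b c : Cy m G) (d : Fin (m + 1) → Cy m G) (e : Fin k → Cy m G)
    (h : (1 + 2 * cx m G * cy m G) * a + cx m G ^ 2 * b + 2 * cz m G * c + ∑ j, cj m G j * e j = 0) :
    Derivation ℂ (Cy m G) (Cy m G) :=
  mkD (vec m G a b c d e) (by rw [mkDer_F]; exact h)

section

variable {m G} {a b c : Cy m G} {d : Fin (m + 1) → Cy m G} {e : Fin k → Cy m G}
  (h : (1 + 2 * cx m G * cy m G) * a + cx m G ^ 2 * b + 2 * cz m G * c + ∑ j, cj m G j * e j = 0)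

theorem mk5_x : mk5 m G a b c d e h (cx m G) = a := mkD_gen _ _ _
theorem mk5_y : mk5 m G a b c d e h (cy m G) = b := mkD_gen _ _ _
theorem mk5_z : mk5 m G a b c d e h (cz m G) = c := mkD_gen _ _ _
theorem mk5_w (i : Fin (m + 1)) : mk5 m G a b c d e h (cw m G i) = d i := mkD_gen _ _ _
theorem mk5_t (j : Fin k) : mk5 m G a b c d e h (ct m G j) = e j := mkD_gen _ _ _

theorem mk5_g : mk5 m G a b c d e h (cg m G) = ∑ j, cj m G j * e j := by
  rw [cg, chain]
  refine Finset.sum_congr rfl fun j _ => ?_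
  rw [mk5_t]
  rfl

end

theorem aeval_mem {S : Subalgebra ℂ (Cy m G)} (h : ∀ j, ct m G j ∈ S) (q : MvPolynomial (Fin k) ℂ) :
    MvPolynomial.aeval (ct m G) q ∈ S := by
  have : MvPolynomial.aeval (ct m G) q ∈ (MvPolynomial.aeval (R := ℂ) (ct m G)).range := ⟨q, rfl⟩
  rw [← Algebra.adjoin_range_eq_range_aeval] at this
  refine (Algebra.adjoin_le ?_) this
  rintro _ ⟨i, rfl⟩
  exact h i

theorem LN_of {D : Derivation ℂ (Cy m G) (Cy m G)} (hx : cx m G ∈ nil D) (hy : cy m G ∈ nil D)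
    (hz : cz m G ∈ nil D) (hw : ∀ i, cw m G i ∈ nil D) (ht : ∀ j, ct m G j ∈ nil D) : LN D := by
  rw [LN_iff]
  apply sub_top
  rintro (i | i | i)
  · fin_cases i
    · exact hx
    · exact hy
    · exact hz
  · exact hw i
  · exact ht i

/-! ### the coordinates of the cylinder -/

def cZ : Cy m G := cz m G + cx m G * cw m G 0
def cY : Cy m G := cy m G + cw m G 0 ^ 2
def cp : Cy m G := 1 + cx m G * cY m G - 2 * cZ m G * cw m G 0
def co : Cy m G := cZ m G * cY m G + 2 * cp m G * cw m G 0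

theorem rel2 : cx m G * cp m G + cZ m G ^ 2 + cg m G = 0 := by
  have h := rel m G
  rw [cp, cY, cZ]
  linear_combination h

/-! ### the derivations -/

/-- `∂/∂w_i` -/
def Dw (i : Fin (m + 1)) : Derivation ℂ (Cy m G) (Cy m G) :=
  mk5 m G 0 0 0 (fun j => if j = i then 1 else 0) 0 (by simp)

/-- `x² ∂/∂z - 2 z ∂/∂y` -/
def D1 : Derivation ℂ (Cy m G) (Cy m G) :=
  mk5 m G 0 (-2 * cz m G) (cx m G ^ 2) 0 0 (by
    simp only [Pi.zero_apply, mul_zero, Finset.sum_const_zero]
    ring)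

/-- the derivative of `G` in the direction `v` -/
def cv (v : Fin k → ℂ) : Cy m G := ∑ j, cj m G j * algebraMap ℂ _ (v j)

/-- `x² ∂_v - G_v ∂/∂y` -/
def Dt (v : Fin k → ℂ) : Derivation ℂ (Cy m G) (Cy m G) :=
  mk5 m G 0 (-cv m G v) 0 0 (fun j => algebraMap ℂ _ (v j) * cx m G ^ 2) (by
    have : ∑ j, cj m G j * (algebraMap ℂ _ (v j) * cx m G ^ 2) = cv m G v * cx m G ^ 2 := by
      rw [cv, Finset.sum_mul]
      exact Finset.sum_congr rfl fun j _ => by ring
    rw [this]
    ring)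

/-- the derivation `E` -/
def DE : Derivation ℂ (Cy m G) (Cy m G) :=
  mk5 m G (4 * cZ m G * cg m G)
    (2 * cp m G * co m G - 2 * cw m G 0 * (cg m G * cY m G - cZ m G * co m G))
    (-2 * cp m G * cg m G - 4 * cZ m G * cg m G * cw m G 0 -
      cx m G * (cg m G * cY m G - cZ m G * co m G))
    (fun j => if j = 0 then cg m G * cY m G - cZ m G * co m G else 0) 0 (by
    simp only [Pi.zero_apply, mul_zero, Finset.sum_const_zero]
    have h := rel2 m G
    rw [co, cp, cY, cZ] at *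
    generalize cx m G = x at *
    generalize cy m G = y at *
    generalize cz m G = z at *
    generalize cw m G 0 = w at *
    generalize cg m G = g at *
    linear_combination (2 * x * ((z + x * w) * (y + w ^ 2) +
      2 * (1 + x * (y + w ^ 2) - 2 * (z + x * w) * w) * w)) * h)

/-- the derivations `D_v` -/
def DV (v : Fin k → ℂ) : Derivation ℂ (Cy m G) (Cy m G) :=
  mk5 m G (-2 * cv m G v * (co m G - 2 * cZ m G * cY m G))
    (-2 * cv m G v * cw m G 0 * cY m G ^ 2)
    (-2 * cv m G v * cY m G * cp m G + 2 * cv m G v * (co m G - 2 * cZ m G * cY m G) * cw m G 0 -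
      cx m G * cv m G v * cY m G ^ 2)
    (fun j => if j = 0 then cv m G v * cY m G ^ 2 else 0)
    (fun j => algebraMap ℂ _ (v j) * (2 * cp m G * co m G)) (by
    have : ∑ j, cj m G j * (algebraMap ℂ _ (v j) * (2 * cp m G * co m G)) =
        cv m G v * (2 * cp m G * co m G) := by
      rw [cv, Finset.sum_mul]
      exact Finset.sum_congr rfl fun j _ => by ring
    rw [this]
    rw [co, cp, cY, cZ]
    ring)

theorem LN_Dw (i : Fin (m + 1)) : LN (Dw m G i) := by
  apply LN_of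
  · exact nil_of_zero (mk5_x _)
  · exact nil_of_zero (mk5_y _)
  · exact nil_of_zero (mk5_z _)
  · intro j
    apply nil_of
    rw [Dw, mk5_w]
    split_ifs
    · exact one_mem _
    · exact zero_mem _
  · intro j
    exact nil_of_zero (mk5_t _ j)

theorem LN_D1 : LN (D1 m G) := by
  have hx : cx m G ∈ nil (D1 m G) := nil_of_zero (mk5_x _)
  have hz : cz m G ∈ nil (D1 m G) := nil_of (by rw [D1, mk5_z]; exact pow_mem hx 2)
  apply LN_of
  · exact hx
  · exact nil_of (by
      rw [D1, mk5_y]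
      exact mul_mem (neg_mem (ofNat_mem _ 2)) hz)
  · exact hz
  · intro j
    exact nil_of_zero (mk5_w _ j)
  · intro j
    exact nil_of_zero (mk5_t _ j)

theorem cv_mem {D : Derivation ℂ (Cy m G) (Cy m G)} (ht : ∀ j, ct m G j ∈ nil D) (v : Fin k → ℂ) :
    cv m G v ∈ nil D := by
  rw [cv]
  refine sum_mem fun j _ => mul_mem (aeval_mem m G ht _) (Subalgebra.algebraMap_mem _ _)

theorem LN_Dt (v : Fin k → ℂ) : LN (Dt m G v) := by
  have hx : cx m G ∈ nil (Dt m G v) := nil_of_zero (mk5_x _)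
  have ht : ∀ j, ct m G j ∈ nil (Dt m G v) := fun j => nil_of (by
    rw [Dt, mk5_t]
    exact mul_mem (Subalgebra.algebraMap_mem _ _) (pow_mem hx 2))
  apply LN_of
  · exact hx
  · exact nil_of (by
      rw [Dt, mk5_y]
      exact neg_mem (cv_mem m G ht v))
  · exact nil_of_zero (mk5_z _)
  · intro j
    exact nil_of_zero (mk5_w _ j)
  · exact ht

theorem DE_Z : DE m G (cZ m G) = -2 * cp m G * cg m G := by
  rw [cZ, map_add, Derivation.leibniz, DE, mk5_z, mk5_w, mk5_x, if_pos rfl]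
  simp only [smul_eq_mul, cZ]
  ring

theorem DE_Y : DE m G (cY m G) = 2 * cp m G * co m G := by
  rw [cY, map_add, Derivation.leibniz_pow, DE, mk5_y, mk5_w, if_pos rfl]
  simp only [smul_eq_mul, nsmul_eq_mul, Nat.cast_ofNat, Nat.add_one_sub_one, pow_one, cY]
  ring

theorem DE_w : DE m G (cw m G 0) = cg m G * cY m G - cZ m G * co m G := by
  rw [DE, mk5_w, if_pos rfl]

theorem DE_x : DE m G (cx m G) = 4 * cZ m G * cg m G := by
  rw [DE, mk5_x]

theorem der_two (D : Derivation ℂ (Cy m G) (Cy m G)) (a : Cy m G) : D (2 * a) = 2 * D a := by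
  rw [two_mul, map_add, two_mul]

theorem DE_p : DE m G (cp m G) = 0 := by
  have h := rel2 m G
  rw [cp, map_sub, map_add, mul_assoc, der_two]
  simp only [Derivation.leibniz, DE_Z, DE_Y, DE_w, DE_x, Derivation.map_one_eq_zero,
    smul_eq_mul]
  rw [co]
  rw [cp] at *
  linear_combination (2 * (cZ m G * cY m G + 2 * (1 + cx m G * cY m G - 2 * cZ m G * cw m G 0) *
    cw m G 0)) * h

theorem DE_o : DE m G (co m G) = 0 := by
  rw [co, map_add, mul_assoc, der_two]
  simp only [Derivation.leibniz, DE_Z, DE_Y, DE_w, DE_p, smul_eq_mul]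
  rw [co]
  ring

theorem DE_t (j : Fin k) : DE m G (ct m G j) = 0 := by
  rw [DE, mk5_t]
  rfl

theorem DE_g : DE m G (cg m G) = 0 := by
  rw [DE, mk5_g]
  simp

theorem DE_w' (i : Fin (m + 1)) (hi : i ≠ 0) : DE m G (cw m G i) = 0 := by
  rw [DE, mk5_w, if_neg hi]

theorem y_eq : cy m G = cY m G - cw m G 0 ^ 2 := by
  rw [cY]
  ring

theorem z_eq : cz m G = cZ m G - cx m G * cw m G 0 := by
  rw [cZ]
  ring

theorem LN_DE : LN (DE m G) := by
  have hp : cp m G ∈ nil (DE m G) := nil_of_zero (DE_p m G)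
  have ho : co m G ∈ nil (DE m G) := nil_of_zero (DE_o m G)
  have hg : cg m G ∈ nil (DE m G) := nil_of_zero (DE_g m G)
  have hZ : cZ m G ∈ nil (DE m G) := nil_of (by
    rw [DE_Z]
    exact mul_mem (mul_mem (neg_mem (ofNat_mem _ 2)) hp) hg)
  have hY : cY m G ∈ nil (DE m G) := nil_of (by
    rw [DE_Y]
    exact mul_mem (mul_mem (ofNat_mem _ 2) hp) ho)
  have hw : cw m G 0 ∈ nil (DE m G) := nil_of (by
    rw [DE_w]
    exact sub_mem (mul_mem hg hY) (mul_mem hZ ho))
  have hx : cx m G ∈ nil (DE m G) := nil_of (by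
    rw [DE_x]
    exact mul_mem (mul_mem (ofNat_mem _ 4) hZ) hg)
  apply LN_of
  · exact hx
  · rw [y_eq]
    exact sub_mem hY (pow_mem hw 2)
  · rw [z_eq]
    exact sub_mem hZ (mul_mem hx hw)
  · intro i
    by_cases hi : i = 0
    · rw [hi]
      exact hw
    · exact nil_of_zero (DE_w' m G i hi)
  · intro j
    exact nil_of_zero (DE_t m G j)

section DV

variable (v : Fin k → ℂ)

theorem DV_x : DV m G v (cx m G) = -2 * cv m G v * (co m G - 2 * cZ m G * cY m G) := by
  rw [DV, mk5_x]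

theorem DV_w : DV m G v (cw m G 0) = cv m G v * cY m G ^ 2 := by
  rw [DV, mk5_w, if_pos rfl]

theorem DV_w' (i : Fin (m + 1)) (hi : i ≠ 0) : DV m G v (cw m G i) = 0 := by
  rw [DV, mk5_w, if_neg hi]

theorem DV_t (j : Fin k) :
    DV m G v (ct m G j) = algebraMap ℂ _ (v j) * (2 * cp m G * co m G) := by
  rw [DV, mk5_t]

theorem DV_Z : DV m G v (cZ m G) = -2 * cv m G v * cY m G * cp m G := by
  rw [cZ, map_add, Derivation.leibniz, DV, mk5_z, mk5_w, mk5_x, if_pos rfl]
  simp only [smul_eq_mul, cZ]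
  ring

theorem DV_Y : DV m G v (cY m G) = 0 := by
  rw [cY, map_add, Derivation.leibniz_pow, DV, mk5_y, mk5_w, if_pos rfl]
  simp only [smul_eq_mul, nsmul_eq_mul, Nat.cast_ofNat, Nat.add_one_sub_one, pow_one, cY]
  ring

theorem DV_p : DV m G v (cp m G) = 0 := by
  rw [cp, map_sub, map_add, mul_assoc, der_two]
  simp only [Derivation.leibniz, DV_Z, DV_Y, DV_w, DV_x, Derivation.map_one_eq_zero,
    smul_eq_mul]
  rw [co]
  rw [cp]
  ring

theorem DV_o : DV m G v (co m G) = 0 := by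
  rw [co, map_add, mul_assoc, der_two]
  simp only [Derivation.leibniz, DV_Z, DV_Y, DV_w, DV_p, smul_eq_mul]
  ring

theorem LN_DV : LN (DV m G v) := by
  have hp : cp m G ∈ nil (DV m G v) := nil_of_zero (DV_p m G v)
  have ho : co m G ∈ nil (DV m G v) := nil_of_zero (DV_o m G v)
  have hY : cY m G ∈ nil (DV m G v) := nil_of_zero (DV_Y m G v)
  have ht : ∀ j, ct m G j ∈ nil (DV m G v) := fun j => nil_of (by
    rw [DV_t]
    exact mul_mem (Subalgebra.algebraMap_mem _ _) (mul_mem (mul_mem (ofNat_mem _ 2) hp) ho))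
  have hv : cv m G v ∈ nil (DV m G v) := cv_mem m G ht v
  have hZ : cZ m G ∈ nil (DV m G v) := nil_of (by
    rw [DV_Z]
    exact mul_mem (mul_mem (mul_mem (neg_mem (ofNat_mem _ 2)) hv) hY) hp)
  have hw : cw m G 0 ∈ nil (DV m G v) := nil_of (by
    rw [DV_w]
    exact mul_mem hv (pow_mem hY 2))
  have hx : cx m G ∈ nil (DV m G v) := nil_of (by
    rw [DV_x]
    exact mul_mem (mul_mem (neg_mem (ofNat_mem _ 2)) hv)
      (sub_mem ho (mul_mem (mul_mem (ofNat_mem _ 2) hZ) hY)))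
  apply LN_of
  · exact hx
  · rw [y_eq]
    exact sub_mem hY (pow_mem hw 2)
  · rw [z_eq]
    exact sub_mem hZ (mul_mem hx hw)
  · intro i
    by_cases hi : i = 0
    · rw [hi]
      exact hw
    · exact nil_of_zero (DV_w' m G v i hi)
  · exact ht

end DV

end

end Pool.Agent.Helper72.KRF
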